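import Pool.Agent.MP_ed2161_an.Pair

set_option autoImplicit false
open Complex Filter Topology MeasureTheory Metric
open scoped ComplexConjugate InnerProductSpace

namespace Pool.Agent.MP_ed2161_an

section Abs

variable {H : Type*} [NormedAddCommGroup H] [InnerProductSpace ℂ H] [CompleteSpace H]
variable {Ma Mb : H →L[ℂ] H}

omit [CompleteSpace H] in
lemma norm_split (hV : ∀ x y, ⟪Ma x, Ma y⟫_ℂ + ⟪Mb x, Mb y⟫_ℂ = ⟪x, y⟫_ℂ) (x : H) :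
    ‖Ma x‖ ^ 2 + ‖Mb x‖ ^ 2 = ‖x‖ ^ 2 := by
  have h := congrArg Complex.re (hV x x)
  rw [Complex.add_re] at h
  have e : ∀ y : H, (⟪y, y⟫_ℂ).re = ‖y‖ ^ 2 := fun y => inner_self_eq_norm_sq (𝕜 := ℂ) y
  rw [e, e, e] at h
  exact h

omit [CompleteSpace H] in
lemma norm_Mb_le (hV : ∀ x y, ⟪Ma x, Ma y⟫_ℂ + ⟪Mb x, Mb y⟫_ℂ = ⟪x, y⟫_ℂ) (x : H) :
    ‖Mb x‖ ≤ ‖x‖ := by
  have h := norm_split hV x
  have h1 : ‖Mb x‖ ^ 2 ≤ ‖x‖ ^ 2 := by nlinarith [sq_nonneg ‖Ma x‖]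
  exact (sq_le_sq₀ (norm_nonneg _) (norm_nonneg _)).1 h1

lemma adj_norm_le (hV : ∀ x y, ⟪Ma x, Ma y⟫_ℂ + ⟪Mb x, Mb y⟫_ℂ = ⟪x, y⟫_ℂ) (x : H) :
    ‖ContinuousLinearMap.adjoint Mb x‖ ≤ ‖x‖ := by
  have h1 : ‖Mb‖ ≤ 1 := ContinuousLinearMap.opNorm_le_bound _ zero_le_one
    (fun y => by rw [one_mul]; exact norm_Mb_le hV y)
  have h2 : ‖ContinuousLinearMap.adjoint Mb‖ ≤ 1 := by
    rw [LinearIsometryEquiv.norm_map]; exact h1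
  calc ‖ContinuousLinearMap.adjoint Mb x‖ ≤ ‖ContinuousLinearMap.adjoint Mb‖ * ‖x‖ :=
        ContinuousLinearMap.le_opNorm _ _
    _ ≤ 1 * ‖x‖ := by gcongr
    _ = ‖x‖ := one_mul _

lemma defect_bound (hV : ∀ x y, ⟪Ma x, Ma y⟫_ℂ + ⟪Mb x, Mb y⟫_ℂ = ⟪x, y⟫_ℂ)
    {f fp : H} (hf : ∀ x, ⟪f, Mb x⟫_ℂ = ⟪fp, Ma x⟫_ℂ) (g : H) :
    ‖⟪f, g⟫_ℂ‖ ^ 2 ≤ (‖f‖ ^ 2 + ‖fp‖ ^ 2) *
      (‖g‖ ^ 2 - ‖ContinuousLinearMap.adjoint Mb g‖ ^ 2) := by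
  set q := ContinuousLinearMap.adjoint Mb g with hq
  have h1 : ⟪f, g⟫_ℂ = ⟪f, g - Mb q⟫_ℂ + ⟪fp, Ma q⟫_ℂ := by
    rw [← hf, inner_sub_right]; ring
  have h2 : ‖⟪f, g⟫_ℂ‖ ≤ ‖f‖ * ‖g - Mb q‖ + ‖fp‖ * ‖Ma q‖ := by
    rw [h1]
    exact (norm_add_le _ _).trans (add_le_add (norm_inner_le_norm _ _) (norm_inner_le_norm _ _))
  have h3 : ‖g - Mb q‖ ^ 2 = ‖g‖ ^ 2 - 2 * ‖q‖ ^ 2 + ‖Mb q‖ ^ 2 := by
    rw [@norm_sub_sq ℂ]
    have : RCLike.re ⟪g, Mb q⟫_ℂ = ‖q‖ ^ 2 := by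
      rw [← ContinuousLinearMap.adjoint_inner_left, ← hq]
      exact inner_self_eq_norm_sq (𝕜 := ℂ) q
    rw [this]
  have h4 := norm_split hV q
  have h5 : ‖g - Mb q‖ ^ 2 + ‖Ma q‖ ^ 2 = ‖g‖ ^ 2 - ‖q‖ ^ 2 := by rw [h3]; linarith
  rw [← h5]
  calc ‖⟪f, g⟫_ℂ‖ ^ 2 ≤ (‖f‖ * ‖g - Mb q‖ + ‖fp‖ * ‖Ma q‖) ^ 2 := by
        gcongr
    _ ≤ _ := by nlinarith [sq_nonneg (‖f‖ * ‖Ma q‖ - ‖fp‖ * ‖g - Mb q‖)]

lemma defect_le (hV : ∀ x y, ⟪Ma x, Ma y⟫_ℂ + ⟪Mb x, Mb y⟫_ℂ = ⟪x, y⟫_ℂ) (u w : H) :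
    ‖u - Mb w‖ ^ 2 - ‖ContinuousLinearMap.adjoint Mb (u - Mb w)‖ ^ 2 ≤ ‖u‖ ^ 2 + ‖Ma w‖ ^ 2 := by
  set y := ContinuousLinearMap.adjoint Mb u + ContinuousLinearMap.adjoint Ma (Ma w) with hy
  have h1 : ContinuousLinearMap.adjoint Mb (Mb w) = w - ContinuousLinearMap.adjoint Ma (Ma w) := by
    apply ext_inner_right ℂ
    intro x
    rw [ContinuousLinearMap.adjoint_inner_left, inner_sub_left,
      ContinuousLinearMap.adjoint_inner_left, ← hV w x]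
    ring
  have h2 : ContinuousLinearMap.adjoint Mb (u - Mb w) = y - w := by
    rw [map_sub, h1, hy]; abel
  have h3 : RCLike.re ⟪y, w⟫_ℂ = RCLike.re ⟪u, Mb w⟫_ℂ + ‖Ma w‖ ^ 2 := by
    rw [hy, inner_add_left, ContinuousLinearMap.adjoint_inner_left,
      ContinuousLinearMap.adjoint_inner_left, map_add]
    congr 1
    exact inner_self_eq_norm_sq (𝕜 := ℂ) (Ma w)
  have h4 := norm_split hV w
  rw [h2, @norm_sub_sq ℂ, @norm_sub_sq ℂ _ _ _ _ y w, h3]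
  nlinarith [sq_nonneg ‖y‖]

end Abs

lemma adjoint_kern {b : ℂ → ℂ} {Mb : H2 →L[ℂ] H2}
    (hMb : ∀ x z, ‖z‖ < 1 → toFun (Mb x) z = b z * toFun x z) {z : ℂ} (hz : ‖z‖ < 1) :
    ContinuousLinearMap.adjoint Mb (kern z) = conj (b z) • kern z := by
  apply ext_inner_right ℂ
  intro x
  rw [ContinuousLinearMap.adjoint_inner_left, inner_smul_left, inner_kern hz, inner_kern hz,
    hMb x z hz]
  simp

lemma kern_ne_zero {z : ℂ} (hz : ‖z‖ < 1) : kern z ≠ 0 := by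
  intro h
  have := kern_apply hz 0
  rw [h] at this
  simp at this

lemma b_le_one {b : ℂ → ℂ} {Ma Mb : H2 →L[ℂ] H2}
    (hV : ∀ x y, ⟪Ma x, Ma y⟫_ℂ + ⟪Mb x, Mb y⟫_ℂ = ⟪x, y⟫_ℂ)
    (hMb : ∀ x z, ‖z‖ < 1 → toFun (Mb x) z = b z * toFun x z) {z : ℂ} (hz : ‖z‖ < 1) :
    ‖b z‖ ≤ 1 := by
  have h1 := adj_norm_le hV (kern z)
  rw [adjoint_kern hMb hz, norm_smul, RCLike.norm_conj] at h1
  have h2 : 0 < ‖kern z‖ := norm_pos_iff.2 (kern_ne_zero hz)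
  by_contra h
  push Not at h
  nlinarith

lemma norm_sq_comb {n : ℕ} (z c : Fin n → ℂ) (hz : ∀ i, ‖z i‖ < 1) :
    ((‖∑ i, conj (c i) • kern (z i)‖ ^ 2 : ℝ) : ℂ)
      = ∑ i, ∑ j, conj (c i) * c j * (1 / (1 - conj (z i) * z j)) := by
  have h0 : ((‖∑ i, conj (c i) • kern (z i)‖ ^ 2 : ℝ) : ℂ)
      = ⟪∑ i, conj (c i) • kern (z i), ∑ i, conj (c i) • kern (z i)⟫_ℂ := by
    rw [inner_self_eq_norm_sq_to_K (𝕜 := ℂ)]
    push_cast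
    rfl
  rw [h0, sum_inner, Finset.sum_comm]
  refine Finset.sum_congr rfl (fun i _ => ?_)
  rw [inner_sum]
  refine Finset.sum_congr rfl (fun j _ => ?_)
  rw [inner_smul_left, inner_smul_right, inner_kern (hz i), toFun_kern (hz j) (hz i),
    Complex.conj_conj]
  ring

lemma kernel_form {b : ℂ → ℂ} {Mb : H2 →L[ℂ] H2}
    (hMb : ∀ x z, ‖z‖ < 1 → toFun (Mb x) z = b z * toFun x z) {n : ℕ} (z a : Fin n → ℂ)
    (hz : ∀ i, ‖z i‖ < 1) :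
    (∑ i, ∑ j, conj (a i) * a j *
      ((1 - conj (b (z i)) * b (z j)) / (1 - conj (z i) * z j))).re
      = ‖∑ i, conj (a i) • kern (z i)‖ ^ 2
        - ‖ContinuousLinearMap.adjoint Mb (∑ i, conj (a i) • kern (z i))‖ ^ 2 := by
  have h1 := norm_sq_comb z a hz
  have h2 := norm_sq_comb z (fun i => a i * b (z i)) hz
  have h3 : ContinuousLinearMap.adjoint Mb (∑ i, conj (a i) • kern (z i))
      = ∑ i, conj (a i * b (z i)) • kern (z i) := by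
    rw [map_sum]
    refine Finset.sum_congr rfl (fun i _ => ?_)
    rw [map_smul, adjoint_kern hMb (hz i), smul_smul, map_mul]
  rw [h3]
  have h4 : (∑ i, ∑ j, conj (a i) * a j *
      ((1 - conj (b (z i)) * b (z j)) / (1 - conj (z i) * z j)))
      = ((‖∑ i, conj (a i) • kern (z i)‖ ^ 2 : ℝ) : ℂ)
        - ((‖∑ i, conj (a i * b (z i)) • kern (z i)‖ ^ 2 : ℝ) : ℂ) := by
    rw [h1, h2, ← Finset.sum_sub_distrib]
    refine Finset.sum_congr rfl (fun i _ => ?_)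
    rw [← Finset.sum_sub_distrib]
    refine Finset.sum_congr rfl (fun j _ => ?_)
    rw [map_mul]
    ring
  rw [h4, ← Complex.ofReal_sub, Complex.ofReal_re]

lemma norm_inner_comb {n : ℕ} (f : H2) (z a : Fin n → ℂ) (hz : ∀ i, ‖z i‖ < 1) :
    ‖⟪f, ∑ i, conj (a i) • kern (z i)⟫_ℂ‖ = ‖∑ i, a i * toFun f (z i)‖ := by
  rw [inner_sum, ← RCLike.norm_conj, map_sum]
  congr 1
  refine Finset.sum_congr rfl (fun i _ => ?_)
  rw [inner_smul_right, map_mul, inner_conj_symm, inner_kern (hz i)]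
  simp

lemma dense_kern (g : H2) {δ : ℝ} (hδ : 0 < δ) :
    ∃ (n : ℕ) (z a : Fin n → ℂ), (∀ i, ‖z i‖ < 1) ∧
      ‖g - ∑ i, conj (a i) • kern (z i)‖ < δ := by
  set S : Set H2 := kern '' {w : ℂ | ‖w‖ < 1} with hS
  have h1 : (Submodule.span ℂ S).topologicalClosure = ⊤ := by
    rw [Submodule.topologicalClosure_eq_top_iff, Submodule.eq_bot_iff]
    intro x hx
    rw [Submodule.mem_orthogonal] at hx
    apply toFun_inj
    intro w hw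
    have h2 := hx (kern w) (Submodule.subset_span ⟨w, hw, rfl⟩)
    rw [inner_kern hw] at h2
    rw [h2, ← inner_kern hw, inner_zero_right]
  have h2 : g ∈ closure ((Submodule.span ℂ S : Submodule ℂ H2) : Set H2) := by
    rw [← Submodule.topologicalClosure_coe, h1]; trivial
  obtain ⟨y, hy, hgy⟩ := Metric.mem_closure_iff.1 h2 δ hδ
  obtain ⟨n, c, k, hk⟩ := Submodule.mem_span_set'.1 hy
  choose w hw hkw using fun i : Fin n => (k i).2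
  refine ⟨n, w, fun i => conj (c i), hw, ?_⟩
  have h3 : ∑ i, conj (conj (c i)) • kern (w i) = y := by
    rw [← hk]
    refine Finset.sum_congr rfl (fun i _ => ?_)
    rw [Complex.conj_conj, hkw]
  rw [h3, ← dist_eq_norm]
  exact hgy

end Pool.Agent.MP_ed2161_an
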