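import Pool.Agent.MP_ed2161_an.Abstr

set_option autoImplicit false
open Complex Filter Topology MeasureTheory Metric
open scoped ComplexConjugate InnerProductSpace

namespace Pool.Agent.MP_ed2161_an

/-- Block lengths. -/
def NN (k : ℕ) : ℕ := 256 ^ k

/-- Exponents of the lacunary series. -/
def ee (k : ℕ) : ℕ := 3 * 256 ^ k

/-- Coefficients of the lacunary series. -/
noncomputable def cc (k : ℕ) : ℝ := ((256 : ℝ) ^ (k ^ 2))⁻¹

noncomputable def AA (k : ℕ) : ℝ := (256 : ℝ) ^ (k + k ^ 2)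

noncomputable def BB (k : ℕ) : ℝ := (256 : ℝ) ^ (k + (k + 1) ^ 2)

/-- The basic bump polynomial. -/
noncomputable def PP (k : ℕ) (z : ℂ) : ℂ := (z * (1 + z) / 2) ^ (NN k)

/-- The `k`-th block of the symbol. -/
noncomputable def EE (k : ℕ) (z : ℂ) : ℂ :=
  PP k z * ((AA k : ℂ) - (BB k : ℂ) * z ^ (ee (k + 1) - ee k))

/-- Partial sums of the symbol. -/
noncomputable def phiK (K : ℕ) (z : ℂ) : ℂ := ∑ k ∈ Finset.range K, EE k z

noncomputable def ww (k j : ℕ) : ℝ := ((NN k).choose j : ℝ) / 2 ^ (NN k)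

/-- The element of the Hardy space representing `z ^ s * PP k z`. -/
noncomputable def qq (k s : ℕ) : H2 :=
  ∑ j ∈ Finset.range (NN k + 1), (ww k j : ℂ) • mono (s + NN k + j)

lemma NN_pos (k : ℕ) : 0 < NN k := by unfold NN; positivity

lemma NN_succ (k : ℕ) : NN (k + 1) = 256 * NN k := by unfold NN; rw [pow_succ]; ring

lemma NN_mono {j k : ℕ} (h : j ≤ k) : NN j ≤ NN k := by
  unfold NN; exact Nat.pow_le_pow_right (by norm_num) h

lemma NN_lt {j k : ℕ} (h : j < k) : 256 * NN j ≤ NN k := by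
  rw [← NN_succ]; exact NN_mono h

lemma ee_eq (k : ℕ) : ee k = 3 * NN k := rfl

lemma ww_nonneg (k j : ℕ) : 0 ≤ ww k j := by unfold ww; positivity

lemma sum_ww (k : ℕ) : ∑ j ∈ Finset.range (NN k + 1), ww k j = 1 := by
  unfold ww
  rw [← Finset.sum_div]
  have := Nat.sum_range_choose (NN k)
  have h2 : ∑ j ∈ Finset.range (NN k + 1), ((NN k).choose j : ℝ) = 2 ^ (NN k) := by
    exact_mod_cast this
  rw [h2]
  field_simp

lemma ww_symm (k : ℕ) {j : ℕ} (hj : j ≤ NN k) : ww k (NN k - j) = ww k j := by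
  unfold ww
  rw [Nat.choose_symm hj]

lemma PP_eq (k : ℕ) (z : ℂ) :
    PP k z = ∑ j ∈ Finset.range (NN k + 1), (ww k j : ℂ) * z ^ (NN k + j) := by
  unfold PP
  rw [div_pow, mul_pow, add_comm (1:ℂ) z, add_pow, Finset.mul_sum, Finset.sum_div]
  refine Finset.sum_congr rfl (fun j _ => ?_)
  unfold ww
  push_cast
  rw [pow_add]
  simp
  ring

lemma toFun_qq (k s : ℕ) {z : ℂ} (hz : ‖z‖ < 1) : toFun (qq k s) z = z ^ s * PP k z := by
  unfold qq
  rw [toFun_sum _ _ hz, PP_eq, Finset.mul_sum]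
  refine Finset.sum_congr rfl (fun j _ => ?_)
  rw [toFun_smul _ _ hz, toFun_mono _ hz, add_assoc, pow_add]
  ring

lemma inner_qq (k s : ℕ) (x : H2) :
    ⟪qq k s, x⟫_ℂ = ∑ j ∈ Finset.range (NN k + 1), (ww k j : ℂ) * x (s + NN k + j) := by
  unfold qq
  rw [sum_inner]
  refine Finset.sum_congr rfl (fun j _ => ?_)
  rw [inner_smul_left, inner_mono_left, Complex.conj_ofReal]

lemma norm_qq_le (k s : ℕ) : ‖qq k s‖ ≤ 1 := by
  unfold qq
  refine (norm_sum_le _ _).trans ?_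
  rw [← sum_ww k]
  refine Finset.sum_le_sum (fun j _ => ?_)
  rw [norm_smul, norm_mono, mul_one, Complex.norm_real, Real.norm_of_nonneg (ww_nonneg k j)]

lemma qq_apply (k s m : ℕ) :
    (qq k s : H2) m = ∑ j ∈ Finset.range (NN k + 1), if m = s + NN k + j then (ww k j : ℂ) else 0 := by
  rw [← inner_mono_left]
  unfold qq
  rw [inner_sum]
  refine Finset.sum_congr rfl (fun j _ => ?_)
  rw [inner_smul_right, inner_mono_left, mono_apply]
  by_cases h : m = s + NN k + j <;> simp [h]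

lemma qq_apply_eq_zero (k s m : ℕ) (h : m < s + NN k ∨ s + 2 * NN k < m) :
    (qq k s : H2) m = 0 := by
  rw [qq_apply]
  apply Finset.sum_eq_zero
  intro j hj
  rw [Finset.mem_range] at hj
  rw [if_neg]
  omega

lemma inner_qq_disj {k s k' s' : ℕ}
    (h : s + 2 * NN k < s' + NN k' ∨ s' + 2 * NN k' < s + NN k) :
    ⟪qq k s, qq k' s'⟫_ℂ = 0 := by
  rw [inner_qq]
  apply Finset.sum_eq_zero
  intro j hj
  rw [Finset.mem_range] at hj
  rw [qq_apply_eq_zero, mul_zero]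
  omega

lemma inner_qq_self (k : ℕ) :
    ⟪qq k 0, qq k 0⟫_ℂ = ((∑ j ∈ Finset.range (NN k + 1), ww k j ^ 2 : ℝ) : ℂ) := by
  rw [inner_qq]
  push_cast
  refine Finset.sum_congr rfl (fun j hj => ?_)
  rw [qq_apply, Finset.sum_eq_single j]
  · simp; ring
  · intro i _ hij
    rw [if_neg]
    omega
  · intro h; exact absurd hj h

noncomputable def nu (k : ℕ) : ℝ := ∑ j ∈ Finset.range (NN k + 1), ww k j ^ 2

lemma inner_qq_self' (k : ℕ) : ⟪qq k 0, qq k 0⟫_ℂ = (nu k : ℂ) := inner_qq_self k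

lemma nu_eq_norm (k : ℕ) : nu k = ‖qq k 0‖ ^ 2 := by
  have h := inner_qq_self' k
  have h2 : ((⟪qq k 0, qq k 0⟫_ℂ)).re = ‖qq k 0‖ ^ 2 := inner_self_eq_norm_sq (𝕜 := ℂ) _
  rw [h, Complex.ofReal_re] at h2
  exact h2

lemma nu_lower (k : ℕ) : 1 / (2 * (NN k : ℝ)) ≤ nu k := by
  have h := sq_sum_le_card_mul_sum_sq (s := Finset.range (NN k + 1)) (f := fun j => ww k j)
  rw [sum_ww, Finset.card_range] at h
  have h2 : (1:ℝ) ≤ NN k := by exact_mod_cast NN_pos k
  have h3 : ((NN k + 1 : ℕ) : ℝ) ≤ 2 * NN k := by push_cast; linarith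
  have h4 : 0 ≤ nu k := Finset.sum_nonneg (fun j _ => sq_nonneg _)
  rw [div_le_iff₀ (by positivity)]
  have h5 : (1:ℝ) ≤ ((NN k + 1 : ℕ) : ℝ) * nu k := by
    unfold nu; simpa using h
  calc (1:ℝ) ≤ ((NN k + 1 : ℕ) : ℝ) * nu k := h5
    _ ≤ (2 * NN k) * nu k := by gcongr
    _ = nu k * (2 * NN k) := by ring

lemma nu_pos (k : ℕ) : 0 < nu k := by
  have h1 := nu_lower k
  have h2 : (0:ℝ) < NN k := by exact_mod_cast NN_pos k
  have : 0 < 1 / (2 * (NN k : ℝ)) := by positivity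
  linarith

lemma hasSum_shift {u : ℕ → ℂ} {v z : ℂ} (t : ℕ) (h : HasSum (fun n => u n * z ^ n) v) :
    HasSum (fun m => (if t ≤ m then u (m - t) else 0) * z ^ m) (z ^ t * v) := by
  have h1 := h.mul_left (z ^ t)
  have hinj : Function.Injective (fun n : ℕ => n + t) := add_left_injective t
  rw [← hinj.hasSum_iff]
  · refine h1.congr_fun (fun n => ?_)
    simp only [Function.comp]
    rw [if_pos (Nat.le_add_left t n), Nat.add_sub_cancel, pow_add]
    ring
  · intro m hm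
    rw [if_neg, zero_mul]
    intro htm
    exact hm ⟨m - t, Nat.sub_add_cancel htm⟩

/-- Coefficients of `z ^ s * PP k z * F z`. -/
noncomputable def cf (k s : ℕ) (u : ℕ → ℂ) (m : ℕ) : ℂ :=
  ∑ j ∈ Finset.range (NN k + 1),
    (ww k j : ℂ) * (if s + NN k + j ≤ m then u (m - (s + NN k + j)) else 0)

lemma hasSum_cf (k s : ℕ) {u : ℕ → ℂ} {v z : ℂ} (h : HasSum (fun n => u n * z ^ n) v) :
    HasSum (fun m => cf k s u m * z ^ m) (z ^ s * PP k z * v) := by
  have h1 : HasSum (fun m => ∑ j ∈ Finset.range (NN k + 1), (ww k j : ℂ) *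
      ((if s + NN k + j ≤ m then u (m - (s + NN k + j)) else 0) * z ^ m))
      (∑ j ∈ Finset.range (NN k + 1), (ww k j : ℂ) * (z ^ (s + NN k + j) * v)) :=
    hasSum_sum (fun j _ => (hasSum_shift _ h).mul_left _)
  have h2 : ∑ j ∈ Finset.range (NN k + 1), (ww k j : ℂ) * (z ^ (s + NN k + j) * v)
      = z ^ s * PP k z * v := by
    rw [PP_eq, Finset.mul_sum, Finset.sum_mul]
    refine Finset.sum_congr rfl (fun j _ => ?_)
    rw [add_assoc, pow_add]; ring
  rw [h2] at h1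
  refine h1.congr_fun (fun m => ?_)
  unfold cf
  rw [Finset.sum_mul]
  refine Finset.sum_congr rfl (fun j _ => ?_)
  ring

lemma cf_zero {k s m : ℕ} (u : ℕ → ℂ) (h : m < s + NN k) : cf k s u m = 0 := by
  unfold cf
  apply Finset.sum_eq_zero
  intro j _
  rw [if_neg (by omega), mul_zero]

lemma cf_eq {k s m : ℕ} (x : H2) (h : s + 3 * NN k ≤ m) :
    cf k s x m = ⟪qq k (m - s - 3 * NN k), x⟫_ℂ := by
  rw [inner_qq]
  unfold cf
  rw [← Finset.sum_range_reflect]
  refine Finset.sum_congr rfl (fun j hj => ?_)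
  rw [Finset.mem_range] at hj
  have e1 : NN k + 1 - 1 - j = NN k - j := by omega
  have e2 : m - (s + NN k + (NN k - j)) = m - s - 3 * NN k + NN k + j := by omega
  rw [e1, ww_symm k (by omega), if_pos (by omega), e2]

end Pool.Agent.MP_ed2161_an
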