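import Pool.Agent.MP_ed2161_an.Limit

set_option autoImplicit false
open Complex Filter Topology MeasureTheory Metric
open scoped ComplexConjugate InnerProductSpace

namespace Pool.Agent.MP_ed2161_an

/-- A combination of Taylor partial sums of `ff`. -/
noncomputable def pp (N : ℕ) (coeff : ℕ → ℂ) : H2 :=
  ∑ m ∈ Finset.range N, coeff m • ∑ k ∈ Finset.range (m + 1), (ff k) • mono k

lemma exists_test {Ma Mb : H2 →L[ℂ] H2}
    (hV : ∀ x y, ⟪Ma x, Ma y⟫_ℂ + ⟪Mb x, Mb y⟫_ℂ = ⟪x, y⟫_ℂ)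
    (hMa : ∀ x z, ‖z‖ < 1 → toFun (Ma x) z = af phi z * toFun x z)
    (hMb : ∀ x z, ‖z‖ < 1 → toFun (Mb x) z = bf phi z * toFun x z) (N : ℕ) (coeff : ℕ → ℂ) :
    ∃ g : H2, ‖g‖ ^ 2 - ‖ContinuousLinearMap.adjoint Mb g‖ ^ 2 ≤ 10 ∧
      1 / 2 < ‖⟪ff - pp N coeff, g⟫_ℂ‖ := by
  obtain ⟨hf, hD⟩ := limit_identities hMa hMb
  obtain ⟨w, hw1, hw2⟩ := exists_wm hMa (vv (N + 1))
  set g : ℕ → H2 := fun m => mono (ee 0) - Mb (w m) with hg
  have hg1 : ∀ m, ‖g m‖ ^ 2 - ‖ContinuousLinearMap.adjoint Mb (g m)‖ ^ 2 ≤ 10 := by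
    intro m
    refine (defect_le hV (mono (ee 0)) (w m)).trans ?_
    rw [norm_mono]
    have h1 := (hw1 m).trans (norm_vv_le (N + 1))
    nlinarith [norm_nonneg (Ma (w m))]
  have hg2 : Tendsto (fun m => ⟪ff, g m⟫_ℂ) atTop (𝓝 1) := by
    have h1 : (fun m => ⟪ff, g m⟫_ℂ) = fun m => 1 - ⟪ffp, Ma (w m)⟫_ℂ := by
      ext m
      rw [hg]
      simp only
      rw [inner_sub_right, hf, inner_mono_right, ff_zero, map_one]
    rw [h1]
    have h2 := (hw2 ffp).const_sub 1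
    rwa [inner_ffp_vv, sub_zero] at h2
  have hg3 : ∀ j, j < N + 1 → Tendsto (fun m => (g m) (ee j)) atTop (𝓝 0) := by
    intro j hj
    have h1 : (fun m => (g m) (ee j))
        = fun m => (mono (ee 0) : H2) (ee j) - ⟪Dfull j, Ma (w m)⟫_ℂ := by
      ext m
      rw [← hD]
      rfl
    rw [h1]
    have h2 := (hw2 (Dfull j)).const_sub ((mono (ee 0) : H2) (ee j))
    have h3 : (mono (ee 0) : H2) (ee j) - ⟪Dfull j, vv (N + 1)⟫_ℂ = 0 := by
      rcases Nat.eq_zero_or_pos j with h | h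
      · subst h
        rw [inner_Dfull_zero (Nat.succ_pos N), mono_apply, if_pos rfl, sub_self]
      · obtain ⟨i, rfl⟩ : ∃ i, j = i + 1 := ⟨j - 1, by omega⟩
        rw [inner_Dfull_succ hj, mono_apply, if_neg, sub_zero]
        intro h'
        have := ee_strictMono.injective h'
        omega
    rwa [h3] at h2
  have hg4 : Tendsto (fun m => ⟪pp N coeff, g m⟫_ℂ) atTop (𝓝 0) := by
    have h1 : (fun m => ⟪pp N coeff, g m⟫_ℂ) = fun m => ∑ i ∈ Finset.range N,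
        conj (coeff i) * ∑ k ∈ Finset.range (i + 1), conj (ff k) * (g m) k := by
      ext m
      unfold pp
      rw [sum_inner]
      refine Finset.sum_congr rfl (fun i _ => ?_)
      rw [inner_smul_left, sum_inner]
      congr 1
      refine Finset.sum_congr rfl (fun k _ => ?_)
      rw [inner_smul_left, inner_mono_left]
    rw [h1]
    have h2 : (0 : ℂ) = ∑ i ∈ Finset.range N,
        conj (coeff i) * ∑ k ∈ Finset.range (i + 1), (0 : ℂ) := by simp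
    rw [h2]
    apply tendsto_finsetSum
    intro i hi
    apply Tendsto.const_mul
    apply tendsto_finsetSum
    intro k hk
    rw [Finset.mem_range] at hi hk
    by_cases h : ∃ j, k = ee j
    · obtain ⟨j, rfl⟩ := h
      have h3 : j ≤ ee j := ee_strictMono.le_apply
      have := (hg3 j (by omega)).const_mul (conj (ff (ee j)))
      rwa [mul_zero] at this
    · push Not at h
      rw [ff_apply_zero h]
      simp
  have hg5 : Tendsto (fun m => ‖⟪ff - pp N coeff, g m⟫_ℂ‖) atTop (𝓝 1) := by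
    have h1 := (hg2.sub hg4).norm
    rw [sub_zero, norm_one] at h1
    refine h1.congr (fun m => ?_)
    rw [inner_sub_left]
  obtain ⟨m, hm⟩ := (hg5.eventually (lt_mem_nhds (show (1 / 2 : ℝ) < 1 by norm_num))).exists
  exact ⟨g m, hg1 m, hm⟩

lemma toFun_pp (N : ℕ) (coeff : ℕ → ℂ) {z : ℂ} (hz : ‖z‖ < 1) :
    toFun (ff - pp N coeff) z = toFun ff z - ∑ m ∈ Finset.range N, coeff m *
      ∑ k ∈ Finset.range (m + 1), iteratedDeriv k (toFun ff) 0 / (k.factorial : ℂ) * z ^ k := by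
  have h1 : tc (toFun ff) = ff := tc_eq (fun z hz => hasSum_toFun ff hz)
  rw [toFun_sub _ _ hz]
  congr 1
  unfold pp
  rw [toFun_sum _ _ hz]
  refine Finset.sum_congr rfl (fun m _ => ?_)
  rw [toFun_smul _ _ hz, toFun_sum _ _ hz]
  congr 1
  refine Finset.sum_congr rfl (fun k _ => ?_)
  rw [toFun_smul _ _ hz, toFun_mono _ hz]
  have h2 : ff k = iteratedDeriv k (toFun ff) 0 / (k.factorial : ℂ) := by
    rw [← congrFun h1 k]; rfl
  rw [h2]

/-- The function `ff` is at a positive distance from all combinations of its partial sums. -/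
lemma far_away {Ma Mb : H2 →L[ℂ] H2}
    (hV : ∀ x y, ⟪Ma x, Ma y⟫_ℂ + ⟪Mb x, Mb y⟫_ℂ = ⟪x, y⟫_ℂ)
    (hMa : ∀ x z, ‖z‖ < 1 → toFun (Ma x) z = af phi z * toFun x z)
    (hMb : ∀ x z, ‖z‖ < 1 → toFun (Mb x) z = bf phi z * toFun x z) (N : ℕ) (coeff : ℕ → ℂ)
    (H : ∀ n : ℕ, ∀ z : Fin n → ℂ, (∀ i, z i ∈ ball (0 : ℂ) 1) → ∀ a : Fin n → ℂ,
      ‖∑ i, a i * (toFun ff (z i) - ∑ m ∈ Finset.range N, coeff m *
        ∑ k ∈ Finset.range (m + 1),
          iteratedDeriv k (toFun ff) 0 / (k.factorial : ℂ) * (z i) ^ k)‖ ^ 2 ≤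
        (1 / 10 : ℝ) ^ 2 * (∑ i, ∑ j, starRingEnd ℂ (a i) * a j *
          ((1 - starRingEnd ℂ (bf phi (z i)) * bf phi (z j)) /
            (1 - starRingEnd ℂ (z i) * z j))).re) : False := by
  obtain ⟨g, hg1, hg2⟩ := exists_test hV hMa hMb N coeff
  set S : Set H2 := {y | ‖⟪ff - pp N coeff, y⟫_ℂ‖ ^ 2 ≤
    (1 / 10 : ℝ) ^ 2 * (‖y‖ ^ 2 - ‖ContinuousLinearMap.adjoint Mb y‖ ^ 2)} with hS
  have hclosed : IsClosed S := by
    apply isClosed_le
    · fun_prop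
    · fun_prop
  have hcomb : ∀ (n : ℕ) (z a : Fin n → ℂ), (∀ i, ‖z i‖ < 1) →
      (∑ i, conj (a i) • kern (z i)) ∈ S := by
    intro n z a hz
    have h1 := H n z (fun i => mem_ball_zero_iff.2 (hz i)) a
    rw [kernel_form hMb z a hz] at h1
    change ‖⟪ff - pp N coeff, ∑ i, conj (a i) • kern (z i)⟫_ℂ‖ ^ 2 ≤ _
    rw [norm_inner_comb _ z a hz]
    refine le_trans (le_of_eq ?_) h1
    congr 2
    refine Finset.sum_congr rfl (fun i _ => ?_)
    rw [toFun_pp N coeff (hz i)]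
  have hgS : g ∈ S := by
    rw [← hclosed.closure_eq, Metric.mem_closure_iff]
    intro δ hδ
    obtain ⟨n, z, a, hz, hd⟩ := dense_kern g hδ
    exact ⟨_, hcomb n z a hz, by rw [dist_eq_norm]; exact hd⟩
  have h3 : ‖⟪ff - pp N coeff, g⟫_ℂ‖ ^ 2 ≤
    (1 / 10 : ℝ) ^ 2 * (‖g‖ ^ 2 - ‖ContinuousLinearMap.adjoint Mb g‖ ^ 2) := hgS
  nlinarith

/-- The function `ff` belongs to the space. -/
lemma mem_space {Ma Mb : H2 →L[ℂ] H2}
    (hV : ∀ x y, ⟪Ma x, Ma y⟫_ℂ + ⟪Mb x, Mb y⟫_ℂ = ⟪x, y⟫_ℂ)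
    (hMa : ∀ x z, ‖z‖ < 1 → toFun (Ma x) z = af phi z * toFun x z)
    (hMb : ∀ x z, ‖z‖ < 1 → toFun (Mb x) z = bf phi z * toFun x z)
    (n : ℕ) (z : Fin n → ℂ) (hz : ∀ i, z i ∈ ball (0 : ℂ) 1) (a : Fin n → ℂ) :
    ‖∑ i, a i * toFun ff (z i)‖ ^ 2 ≤ (Real.sqrt (‖ff‖ ^ 2 + ‖ffp‖ ^ 2)) ^ 2 *
      (∑ i, ∑ j, starRingEnd ℂ (a i) * a j *
          ((1 - starRingEnd ℂ (bf phi (z i)) * bf phi (z j)) /
            (1 - starRingEnd ℂ (z i) * z j))).re := by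
  have hz' : ∀ i, ‖z i‖ < 1 := fun i => mem_ball_zero_iff.1 (hz i)
  obtain ⟨hf, hD⟩ := limit_identities hMa hMb
  rw [Real.sq_sqrt (by positivity), kernel_form hMb z a hz', ← norm_inner_comb ff z a hz']
  exact defect_bound hV hf _

end Pool.Agent.MP_ed2161_an
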