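import Mathlib

set_option autoImplicit false
open Complex Filter Topology MeasureTheory Metric
open scoped ComplexConjugate InnerProductSpace

namespace Pool.Agent.MP_ed2161_an

/-- The Hardy space as the sequence space of square summable Taylor coefficients. -/
abbrev H2 : Type := lp (fun _ : ℕ => ℂ) 2

/-- The power series attached to a coefficient sequence. -/
noncomputable def toFun (x : H2) (z : ℂ) : ℂ := ∑' n, x n * z ^ n

/-- The monomial of degree `n`. -/
noncomputable def mono (n : ℕ) : H2 := lp.single 2 n (1 : ℂ)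

lemma norm_coeff_le (x : H2) (n : ℕ) : ‖x n‖ ≤ ‖x‖ :=
  lp.norm_apply_le_norm (by norm_num) x n

lemma summable_norm_toFun (x : H2) {z : ℂ} (hz : ‖z‖ < 1) :
    Summable (fun n => ‖x n * z ^ n‖) := by
  refine Summable.of_nonneg_of_le (fun n => norm_nonneg _) (fun n => ?_)
    ((summable_geometric_of_lt_one (norm_nonneg z) hz).mul_left ‖x‖)
  rw [norm_mul, norm_pow]
  exact mul_le_mul_of_nonneg_right (norm_coeff_le x n) (by positivity)

lemma hasSum_toFun (x : H2) {z : ℂ} (hz : ‖z‖ < 1) :
    HasSum (fun n => x n * z ^ n) (toFun x z) :=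
  (summable_norm_toFun x hz).of_norm.hasSum

lemma mono_apply (n m : ℕ) : (mono n : H2) m = if m = n then 1 else 0 := by
  unfold mono
  rw [lp.single_apply]
  by_cases h : m = n
  · subst h; simp
  · simp [h]

lemma inner_mono_left (n : ℕ) (x : H2) : ⟪mono n, x⟫_ℂ = x n := by
  unfold mono
  rw [lp.inner_single_left]
  simp

lemma inner_mono_right (n : ℕ) (x : H2) : ⟪x, mono n⟫_ℂ = conj (x n) := by
  rw [← inner_mono_left n x, inner_conj_symm]

lemma norm_mono (n : ℕ) : ‖mono n‖ = 1 := by
  unfold mono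
  rw [lp.norm_single (by norm_num)]
  simp

lemma hasFPS {u : ℕ → ℂ} {F : ℂ → ℂ}
    (h : ∀ z : ℂ, ‖z‖ < 1 → HasSum (fun n => u n * z ^ n) (F z)) :
    HasFPowerSeriesOnBall F (FormalMultilinearSeries.ofScalars ℂ u) 0 1 := by
  refine ⟨?_, by norm_num, ?_⟩
  · refine ENNReal.le_of_forall_nnreal_lt (fun r hr => ?_)
    apply FormalMultilinearSeries.le_radius_of_summable_norm
    have hr1 : (r : ℝ) < 1 := by exact_mod_cast hr
    have := (h (r : ℂ) (by simpa using hr1)).summable.norm
    refine this.congr (fun n => ?_)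
    rw [FormalMultilinearSeries.ofScalars_norm, norm_mul, norm_pow]
    simp
  · intro y hy
    have hy1 : ‖y‖ < 1 := by
      rw [mem_eball_zero_iff] at hy
      rw [← ofReal_norm] at hy
      exact (ENNReal.ofReal_lt_one).1 hy
    have := h y hy1
    rw [zero_add]
    refine this.congr_fun (fun n => ?_)
    rw [FormalMultilinearSeries.ofScalars_apply_eq, smul_eq_mul]

lemma differentiableOn_of_hasSum {u : ℕ → ℂ} {F : ℂ → ℂ}
    (h : ∀ z : ℂ, ‖z‖ < 1 → HasSum (fun n => u n * z ^ n) (F z)) :
    DifferentiableOn ℂ F (ball 0 1) := by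
  have h1 := (hasFPS h).differentiableOn
  refine h1.mono (fun z hz => ?_)
  rw [mem_eball_zero_iff, ← ofReal_norm]
  rw [mem_ball_zero_iff] at hz
  exact ENNReal.ofReal_lt_one.2 hz

lemma differentiableOn_toFun (x : H2) : DifferentiableOn ℂ (toFun x) (ball 0 1) :=
  differentiableOn_of_hasSum (fun _ hz => hasSum_toFun x hz)

lemma coeff_unique {u v : ℕ → ℂ} {F : ℂ → ℂ}
    (h : ∀ z : ℂ, ‖z‖ < 1 → HasSum (fun n => u n * z ^ n) (F z))
    (h' : ∀ z : ℂ, ‖z‖ < 1 → HasSum (fun n => v n * z ^ n) (F z)) : u = v := by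
  have h1 := (hasFPS h).hasFPowerSeriesAt
  have h2 := (hasFPS h').hasFPowerSeriesAt
  exact FormalMultilinearSeries.ofScalars_series_injective ℂ ℂ (h1.eq_formalMultilinearSeries h2)

/-- Taylor coefficients at the origin. -/
noncomputable def tc (F : ℂ → ℂ) (n : ℕ) : ℂ := iteratedDeriv n F 0 / (n.factorial : ℂ)

lemma hasSum_tc {F : ℂ → ℂ} (hF : DifferentiableOn ℂ F (ball 0 1)) {z : ℂ} (hz : ‖z‖ < 1) :
    HasSum (fun n => tc F n * z ^ n) (F z) := by
  have hz' : z ∈ ball (0 : ℂ) 1 := by simpa using hz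
  have := hasSum_taylorSeries_on_ball hF hz'
  refine this.congr_fun (fun n => ?_)
  unfold tc
  simp only [sub_zero, smul_eq_mul]
  ring

lemma tc_eq {u : ℕ → ℂ} {F : ℂ → ℂ}
    (h : ∀ z : ℂ, ‖z‖ < 1 → HasSum (fun n => u n * z ^ n) (F z)) : tc F = u :=
  coeff_unique (fun _ hz => hasSum_tc (differentiableOn_of_hasSum h) hz) h

lemma toFun_inj {x y : H2} (h : ∀ z : ℂ, ‖z‖ < 1 → toFun x z = toFun y z) : x = y := by
  have := coeff_unique (F := toFun x) (u := x) (v := y) (fun z hz => hasSum_toFun x hz)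
    (fun z hz => by rw [h z hz]; exact hasSum_toFun y hz)
  exact Subtype.ext this

/-- The reproducing kernel of the Hardy space. -/
noncomputable def kern (w : ℂ) : H2 :=
  if h : ‖w‖ < 1 then
    ⟨fun n => (conj w) ^ n, by
      apply memℓp_gen
      have : (fun i : ℕ => ‖(conj w) ^ i‖ ^ (2 : ENNReal).toReal) = fun i : ℕ => (‖w‖ ^ 2) ^ i := by
        ext i
        rw [ENNReal.toReal_ofNat, Real.rpow_ofNat, norm_pow, RCLike.norm_conj]
        ring
      rw [this]
      exact summable_geometric_of_lt_one (by positivity) (by nlinarith [norm_nonneg w])⟩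
  else 0

lemma kern_apply {w : ℂ} (h : ‖w‖ < 1) (n : ℕ) : (kern w : H2) n = (conj w) ^ n := by
  unfold kern
  rw [dif_pos h]

lemma inner_kern {w : ℂ} (h : ‖w‖ < 1) (x : H2) : ⟪kern w, x⟫_ℂ = toFun x w := by
  rw [lp.inner_eq_tsum]
  unfold toFun
  congr 1
  ext n
  rw [kern_apply h, RCLike.inner_apply]
  simp

lemma toFun_add (x y : H2) {z : ℂ} (hz : ‖z‖ < 1) : toFun (x + y) z = toFun x z + toFun y z := by
  rw [← inner_kern hz, inner_add_right, inner_kern hz, inner_kern hz]

lemma toFun_sub (x y : H2) {z : ℂ} (hz : ‖z‖ < 1) : toFun (x - y) z = toFun x z - toFun y z := by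
  rw [← inner_kern hz, inner_sub_right, inner_kern hz, inner_kern hz]

lemma toFun_smul (c : ℂ) (x : H2) {z : ℂ} (hz : ‖z‖ < 1) : toFun (c • x) z = c * toFun x z := by
  rw [← inner_kern hz, inner_smul_right, inner_kern hz]

lemma toFun_sum {ι : Type*} (s : Finset ι) (x : ι → H2) {z : ℂ} (hz : ‖z‖ < 1) :
    toFun (∑ i ∈ s, x i) z = ∑ i ∈ s, toFun (x i) z := by
  rw [← inner_kern hz, inner_sum]
  exact Finset.sum_congr rfl (fun i _ => inner_kern hz _)

lemma toFun_mono (n : ℕ) {z : ℂ} (hz : ‖z‖ < 1) : toFun (mono n) z = z ^ n := by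
  rw [← inner_kern hz, inner_mono_right, kern_apply hz]
  simp

lemma toFun_kern {w z : ℂ} (hw : ‖w‖ < 1) (hz : ‖z‖ < 1) :
    toFun (kern w) z = 1 / (1 - conj w * z) := by
  unfold toFun
  have h1 : ‖conj w * z‖ < 1 := by
    rw [norm_mul, RCLike.norm_conj]
    nlinarith [norm_nonneg w, norm_nonneg z]
  have : (fun n => (kern w : H2) n * z ^ n) = fun n => (conj w * z) ^ n := by
    ext n; rw [kern_apply hw, mul_pow]
  rw [this, tsum_geometric_of_norm_lt_one h1, one_div]

/-- Averages of monomials. -/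
lemma avg_mono (n m : ℕ) {r : ℝ} (hr : 0 ≤ r) :
    Real.circleAverage (fun z : ℂ => (conj z) ^ n * z ^ m) 0 r
      = if n = m then ((r : ℂ) ^ (2 * n)) else 0 := by
  have key : ∀ n m : ℕ, n ≤ m →
      Real.circleAverage (fun z : ℂ => (conj z) ^ n * z ^ m) 0 r
      = if n = m then ((r : ℂ) ^ (2 * n)) else 0 := by
    intro n m hnm
    have h1 : Real.circleAverage (fun z : ℂ => (conj z) ^ n * z ^ m) 0 r
        = Real.circleAverage (fun z : ℂ => (r : ℂ) ^ (2 * n) * z ^ (m - n)) 0 r := by
      apply Real.circleAverage_congr_sphere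
      intro z hz
      rw [mem_sphere_zero_iff_norm, abs_of_nonneg hr] at hz
      have h2 : conj z * z = (r : ℂ) ^ 2 := by
        rw [mul_comm, Complex.mul_conj, Complex.normSq_eq_norm_sq, hz]
        push_cast; ring
      simp only
      conv_lhs => rw [← Nat.sub_add_cancel hnm, pow_add]
      calc (conj z) ^ n * (z ^ (m - n) * z ^ n) = (conj z * z) ^ n * z ^ (m - n) := by
            rw [mul_pow]; ring
        _ = _ := by rw [h2]; ring
    rw [h1, DiffContOnCl.circleAverage]
    · by_cases h : n = m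
      · subst h; simp
      · have : m - n ≠ 0 := by omega
        simp [h, this]
    · apply Differentiable.diffContOnCl
      fun_prop
  rcases le_total n m with h | h
  · exact key n m h
  · have h1 := key m n h
    have h2 : (fun z : ℂ => (conj z) ^ n * z ^ m)
        = (Complex.conjCLE : ℂ →L[ℝ] ℂ) ∘ (fun z : ℂ => (conj z) ^ m * z ^ n) := by
      ext z
      simp [mul_comm]
    rw [h2, ContinuousLinearMap.circleAverage_comp_comm, h1]
    · by_cases h' : n = m
      · subst h'; simp
      · simp [h', Ne.symm h']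
    · exact ContinuousOn.circleIntegrable' (Continuous.continuousOn (by fun_prop))

/-- Parseval identity on a circle of radius less than one. -/
lemma avg_conj_mul {u v : ℕ → ℂ} {F G : ℂ → ℂ}
    (hF : ∀ z : ℂ, ‖z‖ < 1 → HasSum (fun n => u n * z ^ n) (F z))
    (hG : ∀ z : ℂ, ‖z‖ < 1 → HasSum (fun n => v n * z ^ n) (G z)) {r : ℝ} (hr : 0 ≤ r)
    (hr1 : r < 1) :
    HasSum (fun n => conj (u n) * v n * (r : ℂ) ^ (2 * n))
      (Real.circleAverage (fun z => conj (F z) * G z) 0 r) := by
  have hnu : Summable (fun n => ‖u n‖ * r ^ n) := by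
    have := (hF (r : ℂ) (by simpa [abs_of_nonneg hr] using hr1)).summable.norm
    refine this.congr (fun n => ?_)
    rw [norm_mul, norm_pow, Complex.norm_real, Real.norm_of_nonneg hr]
  have hnv : Summable (fun n => ‖v n‖ * r ^ n) := by
    have := (hG (r : ℂ) (by simpa [abs_of_nonneg hr] using hr1)).summable.norm
    refine this.congr (fun n => ?_)
    rw [norm_mul, norm_pow, Complex.norm_real, Real.norm_of_nonneg hr]
  have hsum : Summable (fun p : ℕ × ℕ => (‖u p.1‖ * r ^ p.1) * (‖v p.2‖ * r ^ p.2)) :=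
    hnu.mul_of_nonneg hnv (fun n => by positivity) (fun n => by positivity)
  have key : HasSum (fun p : ℕ × ℕ => ∫ θ in (0:ℝ)..2 * Real.pi,
      (conj (u p.1) * v p.2) * ((conj (circleMap 0 r θ)) ^ p.1 * (circleMap 0 r θ) ^ p.2))
      (∫ θ in (0:ℝ)..2 * Real.pi, conj (F (circleMap 0 r θ)) * G (circleMap 0 r θ)) := by
    apply intervalIntegral.hasSum_integral_of_dominated_convergence
      (fun p _ => (‖u p.1‖ * r ^ p.1) * (‖v p.2‖ * r ^ p.2))
    · intro p
      apply Continuous.aestronglyMeasurable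
      fun_prop
    · intro p
      refine Eventually.of_forall (fun θ _ => ?_)
      rw [norm_mul, norm_mul, norm_mul, norm_pow, norm_pow, RCLike.norm_conj, RCLike.norm_conj,
        norm_circleMap_zero, abs_of_nonneg hr]
      apply le_of_eq; ring
    · exact Eventually.of_forall (fun θ _ => hsum)
    · exact intervalIntegrable_const
    · refine Eventually.of_forall (fun θ _ => ?_)
      have hz : ‖circleMap 0 r θ‖ < 1 := by
        rw [norm_circleMap_zero, abs_of_nonneg hr]; exact hr1
      have h1 := (hF _ hz)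
      have h2 := (hG _ hz)
      have h1' : HasSum (fun n => conj (u n * (circleMap 0 r θ) ^ n)) (conj (F (circleMap 0 r θ))) :=
        h1.map (starRingEnd ℂ) Complex.continuous_conj
      have h3 : Summable (fun p : ℕ × ℕ => conj (u p.1 * (circleMap 0 r θ) ^ p.1)
          * (v p.2 * (circleMap 0 r θ) ^ p.2)) := by
        apply Summable.of_norm
        refine hsum.congr (fun p => ?_)
        rw [norm_mul, RCLike.norm_conj, norm_mul, norm_mul, norm_pow, norm_pow,
          norm_circleMap_zero, abs_of_nonneg hr]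
      refine (h1'.mul h2 h3).congr_fun (fun p => ?_)
      rw [map_mul, map_pow]; ring
  have key2 : HasSum (fun p : ℕ × ℕ => if p.1 = p.2 then conj (u p.1) * v p.2 * (r : ℂ) ^ (2 * p.1)
      else 0) (Real.circleAverage (fun z => conj (F z) * G z) 0 r) := by
    have := key.const_smul ((2 * Real.pi)⁻¹ : ℝ)
    unfold Real.circleAverage
    refine this.congr_fun (fun p => ?_)
    have h4 := avg_mono p.1 p.2 hr
    unfold Real.circleAverage at h4
    rw [intervalIntegral.integral_const_mul, ← mul_smul_comm, h4]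
    by_cases h : p.1 = p.2
    · simp [h]
    · simp [h]
  have hinj : Function.Injective (fun n : ℕ => (n, n)) := fun a b h => (Prod.mk.inj h).1
  rw [← hinj.hasSum_iff] at key2
  · refine key2.congr_fun (fun n => ?_)
    simp
  · intro p hp
    have : p.1 ≠ p.2 := by
      intro h
      apply hp
      exact ⟨p.1, by ext <;> simp [h]⟩
    simp [this]

end Pool.Agent.MP_ed2161_an
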