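import Mathlib

set_option autoImplicit false
open Complex Filter Topology MeasureTheory Metric
open scoped ComplexConjugate InnerProductSpace

namespace Pool.Agent.MP_ed2161_an

/-- The Herglotz integral of a real function on the unit circle. -/
noncomputable def Hz (W : ℂ → ℝ) (w : ℂ) : ℂ :=
  Real.circleAverage (fun ζ => herglotzRieszKernel 0 w ζ • (W ζ : ℂ)) 0 1

lemma ci_ofReal {W : ℂ → ℝ} (hW : CircleIntegrable W 0 1) :
    CircleIntegrable (fun ζ => (W ζ : ℂ)) 0 1 := by
  simp only [CircleIntegrable, intervalIntegrable_iff] at hW ⊢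
  exact Complex.ofRealCLM.integrable_comp hW

lemma differentiableOn_Hz {W : ℂ → ℝ} (hW : CircleIntegrable W 0 1) :
    DifferentiableOn ℂ (Hz W) (ball 0 1) :=
  differentiableOn_circleAverage_herglotzRieszKernel_smul (ci_ofReal hW)

lemma ci_kernel {W : ℂ → ℝ} (hW : CircleIntegrable W 0 1) {w : ℂ} (hw : ‖w‖ < 1) :
    CircleIntegrable (fun ζ => herglotzRieszKernel 0 w ζ • (W ζ : ℂ)) 0 1 :=
  (ci_ofReal hW).continuousOn_smul
    (continuousOn_herglotzRieszKernel_sphere (mem_ball_zero_iff.2 hw))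

lemma Hz_sub {W W' : ℂ → ℝ} (hW : CircleIntegrable W 0 1) (hW' : CircleIntegrable W' 0 1)
    {w : ℂ} (hw : ‖w‖ < 1) : Hz (fun z => W z - W' z) w = Hz W w - Hz W' w := by
  unfold Hz
  rw [← Real.circleAverage_fun_sub (ci_kernel hW hw) (ci_kernel hW' hw)]
  congr 1
  ext ζ
  simp only [smul_eq_mul]
  push_cast; ring

lemma Hz_const (c : ℝ) {w : ℂ} (hw : ‖w‖ < 1) : Hz (fun _ => c) w = c := by
  have hw' : w ∈ ball (0:ℂ) |1| := by rw [abs_one]; exact mem_ball_zero_iff.2 hw
  have h1 : Real.circleAverage (fun z : ℂ => ((z - 0) / (z - w)) • (2 * (c : ℂ))) 0 1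
      = 2 * (c : ℂ) :=
    DiffContOnCl.circleAverage_smul_div (f := fun _ => 2 * (c : ℂ)) (R := 1) (c := 0)
      diffContOnCl_const hw'
  have h2 : Real.circleAverage (fun _ : ℂ => (c : ℂ)) 0 1 = c := Real.circleAverage_const _ _ _
  unfold Hz
  have h3 : Real.circleAverage (fun ζ => herglotzRieszKernel 0 w ζ • ((c : ℝ) : ℂ)) 0 1
      = Real.circleAverage (fun z : ℂ => ((z - 0) / (z - w)) • (2 * (c : ℂ)) - (c : ℂ)) 0 1 := by
    apply Real.circleAverage_congr_sphere
    intro ζ hζ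
    have : ζ - w ≠ 0 := by
      rw [mem_sphere_zero_iff_norm, abs_one] at hζ
      intro h
      rw [sub_eq_zero] at h
      rw [h] at hζ
      linarith
    simp only [herglotzRieszKernel_def, smul_eq_mul, sub_zero]
    field_simp
    ring
  rw [h3, Real.circleAverage_fun_sub, h1, h2]
  · ring
  · apply ContinuousOn.circleIntegrable'
    intro ζ hζ
    have : ζ - w ≠ 0 := by
      rw [mem_sphere_zero_iff_norm, abs_one] at hζ
      intro h
      rw [sub_eq_zero] at h
      rw [h] at hζ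
      linarith
    apply ContinuousAt.continuousWithinAt
    fun_prop (disch := assumption)
  · exact ContinuousOn.circleIntegrable' continuousOn_const

lemma re_Hz_nonneg {W : ℂ → ℝ} (hW : CircleIntegrable W 0 1)
    (h0 : ∀ ζ ∈ sphere (0:ℂ) 1, 0 ≤ W ζ) {w : ℂ} (hw : ‖w‖ < 1) : 0 ≤ (Hz W w).re := by
  unfold Hz
  rw [re_circleAverage_herglotzRieszKernel_smul hW (mem_ball_zero_iff.2 hw)]
  apply Real.circleAverage_nonneg_of_nonneg
  intro ζ hζ
  rw [← poissonKernel_eq_re_herglotzRieszKernel]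
  have hζ' : ‖ζ‖ = 1 := by rwa [mem_sphere_zero_iff_norm, abs_one] at hζ
  have h1 : 0 ≤ poissonKernel 0 w ζ := by
    rw [poissonKernel_def, sub_zero, sub_zero, hζ']
    apply div_nonneg _ (by positivity)
    nlinarith [norm_nonneg w]
  exact mul_nonneg h1 (h0 ζ (by rw [mem_sphere_zero_iff_norm]; exact hζ'))

lemma re_Hz_mono {W W' : ℂ → ℝ} (hW : CircleIntegrable W 0 1) (hW' : CircleIntegrable W' 0 1)
    (h : ∀ ζ ∈ sphere (0:ℂ) 1, W ζ ≤ W' ζ) {w : ℂ} (hw : ‖w‖ < 1) :
    (Hz W w).re ≤ (Hz W' w).re := by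
  have h1 : CircleIntegrable (fun z => W' z - W z) 0 1 := by
    unfold CircleIntegrable at *
    exact hW'.sub hW
  have h2 := re_Hz_nonneg h1 (fun ζ hζ => sub_nonneg.2 (h ζ hζ)) hw
  rw [Hz_sub hW' hW hw, Complex.sub_re] at h2
  linarith

lemma re_Hz_le {W : ℂ → ℝ} (hW : CircleIntegrable W 0 1) {m : ℝ}
    (h : ∀ ζ ∈ sphere (0:ℂ) 1, W ζ ≤ m) {w : ℂ} (hw : ‖w‖ < 1) :
    (Hz W w).re ≤ m := by
  have h1 := re_Hz_mono hW (W' := fun _ => m)
    (ContinuousOn.circleIntegrable' continuousOn_const) h hw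
  rwa [Hz_const m hw, Complex.ofReal_re] at h1

lemma norm_kernel_le {w ζ : ℂ} (hw : ‖w‖ < 1) (hζ : ‖ζ‖ = 1) :
    ‖herglotzRieszKernel 0 w ζ‖ ≤ 2 / (1 - ‖w‖) := by
  rw [herglotzRieszKernel_def, sub_zero, sub_zero, norm_div]
  have h1 : ‖ζ + w‖ ≤ 2 := (norm_add_le _ _).trans (by linarith)
  have h2 : 1 - ‖w‖ ≤ ‖ζ - w‖ := by
    have := norm_sub_norm_le ζ w
    linarith
  have h3 : 0 < 1 - ‖w‖ := by linarith
  gcongr

lemma tendsto_Hz {WK : ℕ → ℂ → ℝ} {W G : ℂ → ℝ} (hmeas : ∀ K, CircleIntegrable (WK K) 0 1)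
    (hG : CircleIntegrable G 0 1)
    (hdom : ∀ K, ∀ᵐ θ : ℝ, |WK K (circleMap 0 1 θ)| ≤ G (circleMap 0 1 θ))
    (hlim : ∀ᵐ θ : ℝ, Tendsto (fun K => WK K (circleMap 0 1 θ)) atTop
      (𝓝 (W (circleMap 0 1 θ)))) {w : ℂ} (hw : ‖w‖ < 1) :
    Tendsto (fun K => Hz (WK K) w) atTop (𝓝 (Hz W w)) := by
  unfold Hz Real.circleAverage
  apply Tendsto.const_smul
  apply intervalIntegral.tendsto_integral_filter_of_dominated_convergence
    (fun θ => 2 / (1 - ‖w‖) * G (circleMap 0 1 θ))
  · refine Eventually.of_forall (fun K => ?_)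
    have := ci_kernel (hmeas K) hw
    unfold CircleIntegrable at this
    rw [intervalIntegrable_iff] at this
    exact this.aestronglyMeasurable
  · refine Eventually.of_forall (fun K => ?_)
    filter_upwards [hdom K] with θ hθ _
    rw [norm_smul, Complex.norm_real]
    apply mul_le_mul (norm_kernel_le hw (by simp)) hθ (abs_nonneg _)
    have h3 : 0 < 1 - ‖w‖ := by linarith
    positivity
  · unfold CircleIntegrable at hG
    exact hG.const_mul _
  · filter_upwards [hlim] with θ hθ _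
    apply Tendsto.const_smul
    exact (Complex.continuous_ofReal.tendsto _).comp hθ

lemma circle_sub_lower (θ₀ t : ℝ) (ht : |t| ≤ Real.pi) :
    (2 / Real.pi) * |t| ≤ ‖circleMap 0 1 (θ₀ + t) - circleMap 0 1 θ₀‖ := by
  have h1 : circleMap 0 1 (θ₀ + t) - circleMap 0 1 θ₀
      = cexp (θ₀ * I) * (cexp (I * t) - 1) := by
    unfold circleMap
    push_cast
    rw [add_mul, Complex.exp_add]
    ring_nf
  rw [h1, norm_mul, Complex.norm_exp_ofReal_mul_I, one_mul, Complex.norm_exp_I_mul_ofReal_sub_one,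
    norm_mul, Real.norm_eq_abs, Real.norm_eq_abs, abs_two]
  have h2 := Real.mul_abs_le_abs_sin (x := t / 2) (by rw [abs_div, abs_two]; linarith)
  rw [abs_div, abs_two] at h2
  calc 2 / Real.pi * |t| = 2 * (2 / Real.pi * (|t| / 2)) := by ring
    _ ≤ _ := by gcongr

lemma radial_lower {ζ ζ₀ : ℂ} (hζ : ‖ζ‖ = 1) (hζ₀ : ‖ζ₀‖ = 1) {r : ℝ} (hr : 0 ≤ r) (hr1 : r ≤ 1) :
    ‖ζ - ζ₀‖ ≤ 2 * ‖ζ - r * ζ₀‖ := by
  have h1 : ‖ζ - ζ₀‖ ≤ ‖ζ - r * ζ₀‖ + ‖r * ζ₀ - ζ₀‖ := by
    calc ‖ζ - ζ₀‖ = ‖(ζ - r * ζ₀) + (r * ζ₀ - ζ₀)‖ := by ring_nf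
      _ ≤ _ := norm_add_le _ _
  have h2 : ‖(r:ℂ) * ζ₀ - ζ₀‖ = 1 - r := by
    have : (r:ℂ) * ζ₀ - ζ₀ = ((r - 1 : ℝ) : ℂ) * ζ₀ := by push_cast; ring
    rw [this, norm_mul, hζ₀, mul_one, Complex.norm_real, Real.norm_eq_abs, abs_sub_comm,
      abs_of_nonneg (by linarith)]
  have h3 : 1 - r ≤ ‖ζ - r * ζ₀‖ := by
    have h4 := norm_sub_norm_le ζ ((r:ℂ) * ζ₀)
    rw [hζ, norm_mul, hζ₀, Complex.norm_real, Real.norm_of_nonneg hr, mul_one] at h4
    exact h4
  linarith

lemma radial_Hz {W : ℂ → ℝ} (hW : CircleIntegrable W 0 1) {θ₀ L δ : ℝ} (hδ : 0 < δ)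
    (hL : ∀ t : ℝ, |t| < δ →
      |W (circleMap 0 1 (θ₀ + t)) - W (circleMap 0 1 θ₀)| ≤ L * |t|) :
    ∃ l : ℂ, l.re = W (circleMap 0 1 θ₀) ∧
      Tendsto (fun r : ℝ => Hz W (circleMap 0 r θ₀)) (𝓝[<] 1) (𝓝 l) := by
  set ζ₀ := circleMap 0 1 θ₀ with hζ₀def
  set c := W ζ₀ with hc
  have hζ₀ : ‖ζ₀‖ = 1 := by simp [hζ₀def]
  set ζ : ℝ → ℂ := fun θ => circleMap 0 1 (θ + (θ₀ - Real.pi)) with hζdef
  have hζn : ∀ θ, ‖ζ θ‖ = 1 := fun θ => by simp [hζdef]
  set D : ℝ → ℝ := fun θ => W (ζ θ) - c with hD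
  have hWc : CircleIntegrable (fun z => W z - c) 0 1 := by
    unfold CircleIntegrable at *
    exact hW.sub intervalIntegrable_const
  -- integrability of `D`
  have hDint : IntervalIntegrable D volume 0 (2 * Real.pi) := by
    have h1 : Function.Periodic (fun θ => W (circleMap 0 1 θ) - c) (2 * Real.pi) := by
      intro θ
      have := periodic_circleMap 0 1 θ
      simp only [this]
    have h2 : IntervalIntegrable (fun θ => W (circleMap 0 1 θ) - c) volume
        (0 + (θ₀ - Real.pi)) (2 * Real.pi + (θ₀ - Real.pi)) := by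
      have h3 : IntervalIntegrable (fun θ => W (circleMap 0 1 θ) - c) volume 0 (2 * Real.pi) := hWc
      exact (h1.intervalIntegrable₀ (by positivity) h3) _ _
    have := h2.comp_add_right (θ₀ - Real.pi)
    simpa using this
  -- rewriting of the Herglotz integral
  have hrew : ∀ r : ℝ, 0 < r → r < 1 → Hz W (circleMap 0 r θ₀)
      = c + (2 * Real.pi)⁻¹ • ∫ θ in (0:ℝ)..2 * Real.pi,
        herglotzRieszKernel 0 (circleMap 0 r θ₀) (ζ θ) • (D θ : ℂ) := by
    intro r hr0 hr1
    have hw : ‖circleMap 0 r θ₀‖ < 1 := by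
      rw [norm_circleMap_zero, abs_of_pos hr0]; exact hr1
    have h1 := Hz_sub hW (W' := fun _ => c)
      (ContinuousOn.circleIntegrable' continuousOn_const) hw
    rw [Hz_const c hw] at h1
    have h2 : Hz W (circleMap 0 r θ₀) = c + Hz (fun z => W z - c) (circleMap 0 r θ₀) := by
      rw [h1]; ring
    rw [h2]
    congr 1
    unfold Hz
    rw [Real.circleAverage_eq_integral_add (θ₀ - Real.pi)]
  set bound : ℝ → ℝ := fun θ => 2 * Real.pi * |L| + (2 * Real.pi / δ) * |D θ| with hbound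
  have hlimint : Tendsto (fun r : ℝ => ∫ θ in (0:ℝ)..2 * Real.pi,
        herglotzRieszKernel 0 (circleMap 0 r θ₀) (ζ θ) • (D θ : ℂ)) (𝓝[<] 1)
        (𝓝 (∫ θ in (0:ℝ)..2 * Real.pi, herglotzRieszKernel 0 ζ₀ (ζ θ) • (D θ : ℂ))) := by
    apply intervalIntegral.tendsto_integral_filter_of_dominated_convergence bound
    · filter_upwards [Ioo_mem_nhdsLT (show (0:ℝ) < 1 by norm_num)] with r hr
      refine AEStronglyMeasurable.smul
        (f := fun x => herglotzRieszKernel 0 (circleMap 0 r θ₀) (ζ x))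
        (g := fun x => (D x : ℂ)) ?_ ?_
      · apply Continuous.aestronglyMeasurable
        have hcz : Continuous ζ := by
          rw [hζdef]
          exact (continuous_circleMap 0 1).comp (continuous_id.add continuous_const)
        unfold herglotzRieszKernel
        apply Continuous.div
        · fun_prop
        · fun_prop
        · intro θ h
          rw [sub_zero, sub_zero, sub_eq_zero] at h
          have h1 := congrArg norm h
          rw [hζn, norm_circleMap_zero, abs_of_pos hr.1] at h1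
          linarith [hr.2]
      · have := (ContinuousLinearMap.integrable_comp Complex.ofRealCLM
          ((intervalIntegrable_iff.1 hDint)))
        exact this.aestronglyMeasurable
    · filter_upwards [Ioo_mem_nhdsLT (show (0:ℝ) < 1 by norm_num)] with r hr
      refine Eventually.of_forall (fun θ hθ => ?_)
      rw [Set.uIoc_of_le (by positivity)] at hθ
      set t := θ - Real.pi with ht
      have htp : |t| ≤ Real.pi := by
        rw [abs_le]; constructor <;> linarith [hθ.1, hθ.2]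
      have hζt : ζ θ = circleMap 0 1 (θ₀ + t) := by
        rw [hζdef]; simp only; congr 1; rw [ht]; ring
      have hlow := circle_sub_lower θ₀ t htp
      rw [← hζt, ← hζ₀def] at hlow
      have hrad := radial_lower (hζn θ) hζ₀ hr.1.le hr.2.le
      have hcm : circleMap 0 r θ₀ = r * ζ₀ := by rw [hζ₀def]; simp [circleMap]
      rw [norm_smul, herglotzRieszKernel_def, sub_zero, sub_zero, norm_div, Complex.norm_real,
        Real.norm_eq_abs, hcm]
      have hnum : ‖ζ θ + r * ζ₀‖ ≤ 2 := by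
        refine (norm_add_le _ _).trans ?_
        rw [hζn, norm_mul, hζ₀, Complex.norm_real, Real.norm_of_nonneg hr.1.le]
        linarith [hr.2]
      have hpi := Real.pi_pos
      rcases eq_or_ne t 0 with h0 | h0
      · have : D θ = 0 := by
          rw [hD]; simp only; rw [hζt, h0, add_zero, ← hζ₀def, hc]; ring
        rw [this, abs_zero, mul_zero]
        rw [hbound]; simp only; positivity
      · have htpos : 0 < |t| := abs_pos.2 h0
        have hden : |t| / Real.pi ≤ ‖ζ θ - r * ζ₀‖ := by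
          have : 2 / Real.pi * |t| ≤ 2 * ‖ζ θ - r * ζ₀‖ := hlow.trans hrad
          have e : 2 / Real.pi * |t| = 2 * (|t| / Real.pi) := by ring
          rw [e] at this
          linarith
        have hdenpos : 0 < |t| / Real.pi := by positivity
        have h5 : ‖ζ θ + r * ζ₀‖ / ‖ζ θ - r * ζ₀‖ ≤ 2 * Real.pi / |t| := by
          calc ‖ζ θ + r * ζ₀‖ / ‖ζ θ - r * ζ₀‖ ≤ 2 / (|t| / Real.pi) := by gcongr
            _ = 2 * Real.pi / |t| := by field_simp
        have h6 : ‖ζ θ + r * ζ₀‖ / ‖ζ θ - r * ζ₀‖ * |D θ| ≤ 2 * Real.pi / |t| * |D θ| := by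
          gcongr
        refine h6.trans ?_
        rw [hbound]
        simp only
        rcases lt_or_ge |t| δ with h7 | h7
        · have h8 : |D θ| ≤ |L| * |t| := by
            have := hL t h7
            rw [← hζt] at this
            calc |D θ| ≤ L * |t| := this
              _ ≤ |L| * |t| := by gcongr; exact le_abs_self L
          calc 2 * Real.pi / |t| * |D θ| ≤ 2 * Real.pi / |t| * (|L| * |t|) := by gcongr
            _ = 2 * Real.pi * |L| := by field_simp
            _ ≤ _ := by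
              have : 0 ≤ 2 * Real.pi / δ * |D θ| := by positivity
              linarith
        · calc 2 * Real.pi / |t| * |D θ| ≤ 2 * Real.pi / δ * |D θ| := by gcongr
            _ ≤ _ := by
              have : 0 ≤ 2 * Real.pi * |L| := by positivity
              linarith
    · rw [hbound]
      apply IntervalIntegrable.add intervalIntegrable_const
      exact (hDint.abs).const_mul _
    · refine Eventually.of_forall (fun θ hθ => ?_)
      by_cases h : ζ θ = ζ₀
      · have : D θ = 0 := by rw [hD]; simp only; rw [h, hc]; ring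
        rw [this]; simp
      · apply Tendsto.smul_const
        have hc1 : Tendsto (fun r : ℝ => circleMap 0 r θ₀) (𝓝[<] 1) (𝓝 ζ₀) := by
          have : Continuous (fun r : ℝ => circleMap 0 r θ₀) := by unfold circleMap; fun_prop
          exact (this.tendsto 1).mono_left nhdsWithin_le_nhds
        have h2 : ContinuousAt (fun w : ℂ => herglotzRieszKernel 0 w (ζ θ)) ζ₀ := by
          unfold herglotzRieszKernel
          apply ContinuousAt.div (by fun_prop) (by fun_prop)
          rw [sub_zero, sub_zero]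
          exact sub_ne_zero.2 h
        exact h2.tendsto.comp hc1
  refine ⟨c + (2 * Real.pi)⁻¹ • ∫ θ in (0:ℝ)..2 * Real.pi,
        herglotzRieszKernel 0 ζ₀ (ζ θ) • (D θ : ℂ), ?_, ?_⟩
  · have : (∫ θ in (0:ℝ)..2 * Real.pi,
        herglotzRieszKernel 0 ζ₀ (ζ θ) • (D θ : ℂ)).re = 0 := by
      by_cases hint : IntervalIntegrable (fun θ => herglotzRieszKernel 0 ζ₀ (ζ θ) • (D θ : ℂ))
          volume 0 (2 * Real.pi)
      · have h1 := Complex.reCLM.intervalIntegral_comp_comm hint
        rw [Complex.reCLM_apply] at h1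
        rw [← h1]
        have h2 : (fun θ => Complex.reCLM (herglotzRieszKernel 0 ζ₀ (ζ θ) • (D θ : ℂ)))
            = fun _ => 0 := by
          ext θ
          rw [Complex.reCLM_apply, smul_eq_mul, Complex.re_mul_ofReal]
          have h3 : (herglotzRieszKernel 0 ζ₀ (ζ θ)).re = poissonKernel 0 ζ₀ (ζ θ) := by
            rw [poissonKernel_eq_re_herglotzRieszKernel]; rfl
          rw [h3, poissonKernel_def, sub_zero, sub_zero, hζ₀, hζn]
          simp
        rw [h2]; simp
      · rw [intervalIntegral.integral_undef hint]; simp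
    rw [Complex.add_re, Complex.ofReal_re, Complex.smul_re, this]
    simp
  · refine ((tendsto_const_nhds.add (hlimint.const_smul _))).congr' ?_
    filter_upwards [Ioo_mem_nhdsLT (show (0:ℝ) < 1 by norm_num)] with r hr
    exact (hrew r hr.1 hr.2).symm

end Pool.Agent.MP_ed2161_an
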