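import Pool.Agent.MP_ed2161_an.Symbol

set_option autoImplicit false
open Complex Filter Topology MeasureTheory Metric
open scoped ComplexConjugate InnerProductSpace

namespace Pool.Agent.MP_ed2161_an

lemma inner_comb {n : ℕ} (z a : Fin n → ℂ) (hz : ∀ i, ‖z i‖ < 1) (x : H2) :
    ⟪∑ i, conj (a i) • kern (z i), x⟫_ℂ = ∑ i, a i * toFun x (z i) := by
  rw [sum_inner]
  refine Finset.sum_congr rfl (fun i _ => ?_)
  rw [inner_smul_left, Complex.conj_conj, inner_kern (hz i)]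

/-- Bounded sequences that converge pointwise converge weakly. -/
lemma weak_tendsto {xs : ℕ → H2} {x : H2} {C : ℝ} (hC : ∀ n, ‖xs n‖ ≤ C)
    (h : ∀ z : ℂ, ‖z‖ < 1 → Tendsto (fun n => toFun (xs n) z) atTop (𝓝 (toFun x z))) (y : H2) :
    Tendsto (fun n => ⟪y, xs n⟫_ℂ) atTop (𝓝 ⟪y, x⟫_ℂ) := by
  have hC0 : 0 ≤ C := (norm_nonneg _).trans (hC 0)
  rw [Metric.tendsto_atTop]
  intro ε hε
  set D := C + ‖x‖ + 1 with hD
  have hDpos : 0 < D := by have := norm_nonneg x; positivity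
  obtain ⟨n, z, a, hz, hy⟩ := dense_kern y (δ := ε / (2 * D)) (by positivity)
  set y' := ∑ i, conj (a i) • kern (z i) with hy'
  have h1 : Tendsto (fun m => ⟪y', xs m⟫_ℂ) atTop (𝓝 ⟪y', x⟫_ℂ) := by
    rw [hy', inner_comb z a hz x]
    have : (fun m => ⟪∑ i, conj (a i) • kern (z i), xs m⟫_ℂ)
        = fun m => ∑ i, a i * toFun (xs m) (z i) := by
      ext m; exact inner_comb z a hz (xs m)
    rw [this]
    exact tendsto_finsetSum _ (fun i _ => (h (z i) (hz i)).const_mul (a i))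
  rw [Metric.tendsto_atTop] at h1
  obtain ⟨M, hM⟩ := h1 (ε / 2) (by positivity)
  refine ⟨M, fun m hm => ?_⟩
  have h2 := hM m hm
  rw [dist_eq_norm] at h2 ⊢
  have e1 : ⟪y, xs m⟫_ℂ - ⟪y, x⟫_ℂ = ⟪y - y', xs m - x⟫_ℂ + (⟪y', xs m⟫_ℂ - ⟪y', x⟫_ℂ) := by
    simp only [inner_sub_left, inner_sub_right]; ring
  rw [e1]
  have e2 : ‖⟪y - y', xs m - x⟫_ℂ‖ ≤ ε / (2 * D) * (C + ‖x‖) := by
    refine (norm_inner_le_norm _ _).trans ?_
    apply mul_le_mul hy.le _ (norm_nonneg _) (by positivity)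
    exact (norm_sub_le _ _).trans (add_le_add (hC m) le_rfl)
  have e3 : ε / (2 * D) * (C + ‖x‖) ≤ ε / 2 := by
    rw [div_mul_eq_mul_div, div_le_div_iff₀ (by positivity) (by norm_num)]
    have : C + ‖x‖ ≤ D := by rw [hD]; linarith
    nlinarith
  calc ‖⟪y - y', xs m - x⟫_ℂ + (⟪y', xs m⟫_ℂ - ⟪y', x⟫_ℂ)‖
      ≤ ‖⟪y - y', xs m - x⟫_ℂ‖ + ‖⟪y', xs m⟫_ℂ - ⟪y', x⟫_ℂ‖ := norm_add_le _ _
    _ < ε / 2 + ε / 2 := by linarith
    _ = ε := by ring

lemma strong_weak {xs ys : ℕ → H2} {x y : H2} {C : ℝ} (hC : ∀ n, ‖xs n‖ ≤ C)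
    (hx : Tendsto (fun n => ⟪y, xs n⟫_ℂ) atTop (𝓝 ⟪y, x⟫_ℂ))
    (hy : Tendsto ys atTop (𝓝 y)) :
    Tendsto (fun n => ⟪ys n, xs n⟫_ℂ) atTop (𝓝 ⟪y, x⟫_ℂ) := by
  have h1 : Tendsto (fun n => ⟪ys n - y, xs n⟫_ℂ) atTop (𝓝 0) := by
    have h2 : Tendsto (fun n => ‖ys n - y‖ * C) atTop (𝓝 0) := by
      have := (tendsto_iff_norm_sub_tendsto_zero.1 hy).mul_const C
      simpa using this
    refine squeeze_zero_norm (fun n => ?_) h2
    exact (norm_inner_le_norm _ _).trans (mul_le_mul_of_nonneg_left (hC n) (norm_nonneg _))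
  have h3 := hx.add h1
  rw [add_zero] at h3
  refine h3.congr (fun n => ?_)
  rw [inner_sub_left]; ring

lemma norm_Ma_le {Ma Mb : H2 →L[ℂ] H2}
    (hV : ∀ x y, ⟪Ma x, Ma y⟫_ℂ + ⟪Mb x, Mb y⟫_ℂ = ⟪x, y⟫_ℂ) (x : H2) : ‖Ma x‖ ≤ ‖x‖ := by
  have h := norm_split hV x
  have h1 : ‖Ma x‖ ^ 2 ≤ ‖x‖ ^ 2 := by nlinarith [sq_nonneg ‖Mb x‖]
  exact (sq_le_sq₀ (norm_nonneg _) (norm_nonneg _)).1 h1

/-- Identities satisfied by the limiting pair of multiplication operators. -/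
theorem limit_identities {Ma Mb : H2 →L[ℂ] H2}
    (hMa : ∀ x z, ‖z‖ < 1 → toFun (Ma x) z = af phi z * toFun x z)
    (hMb : ∀ x z, ‖z‖ < 1 → toFun (Mb x) z = bf phi z * toFun x z) :
    (∀ x, ⟪ff, Mb x⟫_ℂ = ⟪ffp, Ma x⟫_ℂ) ∧ (∀ k x, (Mb x : H2) (ee k) = ⟪Dfull k, Ma x⟫_ℂ) := by
  have hK := fun K => (bf_phiK_bdd K)
  choose C hC using hK
  choose MaK MbK hVK hMaK hMbK using fun K => pair_of_good (good_phiK K) (hC K)
  have hst : ∀ K x, ∀ z : ℂ, ‖z‖ < 1 → toFun (MbK K x) z = phiK K z * toFun (MaK K x) z := by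
    intro K x z hz
    rw [hMaK K x z hz, hMbK K x z hz]
    unfold bf
    ring
  have hwa : ∀ x y : H2, Tendsto (fun K => ⟪y, MaK K x⟫_ℂ) atTop (𝓝 ⟪y, Ma x⟫_ℂ) := by
    intro x y
    apply weak_tendsto (C := ‖x‖) (fun K => norm_Ma_le (hVK K) x)
    intro z hz
    rw [hMa x z hz]
    have : (fun K => toFun (MaK K x) z) = fun K => af (phiK K) z * toFun x z := by
      ext K; exact hMaK K x z hz
    rw [this]
    exact (tendsto_af hz).mul_const _
  have hwb : ∀ x y : H2, Tendsto (fun K => ⟪y, MbK K x⟫_ℂ) atTop (𝓝 ⟪y, Mb x⟫_ℂ) := by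
    intro x y
    apply weak_tendsto (C := ‖x‖) (fun K => norm_Mb_le (hVK K) x)
    intro z hz
    rw [hMb x z hz]
    have : (fun K => toFun (MbK K x) z) = fun K => bf (phiK K) z * toFun x z := by
      ext K; exact hMbK K x z hz
    rw [this]
    exact (tendsto_bf hz).mul_const _
  refine ⟨?_, ?_⟩
  · intro x
    have hf : Tendsto (fun K => ∑ k ∈ Finset.range (K + 1), (cc k : ℂ) • mono (ee k)) atTop
        (𝓝 ff) := (summable_ff.hasSum.tendsto_sum_nat).comp (tendsto_add_atTop_nat 1)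
    have hg : Tendsto (fun K => ∑ k ∈ Finset.range (K + 1), gg k) atTop
        (𝓝 ffp) := (summable_gg.hasSum.tendsto_sum_nat).comp (tendsto_add_atTop_nat 1)
    have h1 := strong_weak (fun K => norm_Mb_le (hVK K) x) (hwb x ff) hf
    have h2 := strong_weak (fun K => norm_Ma_le (hVK K) x) (hwa x ffp) hg
    refine tendsto_nhds_unique h1 (h2.congr (fun K => ?_))
    rw [← stage_sum, sum_inner, sum_inner]
    refine Finset.sum_congr rfl (fun k hk => ?_)
    rw [inner_smul_left, inner_smul_left, inner_mono_left,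
      stage_coeff (Nat.lt_succ_iff.1 (Finset.mem_range.1 hk)) (hst K x)]
  · intro k x
    have h1 := hwb x (mono (ee k))
    have h2 := hwa x (Dfull k)
    rw [← inner_mono_left]
    refine tendsto_nhds_unique h1 (h2.congr' ?_)
    filter_upwards [eventually_gt_atTop k] with K hKk
    rw [inner_mono_left, stage_coeff hKk.le (hst K x)]
    unfold Dv
    rw [if_pos hKk]

lemma ee_strictMono : StrictMono ee := by
  apply strictMono_nat_of_lt_succ
  intro k
  have : 256 * ee k ≤ ee (k + 1) := ee_lt (Nat.lt_succ_self k)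
  have h2 := NN_pos k
  have h3 := ee_eq k
  omega

lemma hasSum_ff_apply (m : ℕ) : HasSum (fun k => (cc k : ℂ) * (if m = ee k then 1 else 0)) (ff m) := by
  have h := (innerSL ℂ (mono m)).hasSum summable_ff.hasSum
  simp only [innerSL_apply_apply] at h
  have e : ⟪mono m, ∑' k, (cc k : ℂ) • mono (ee k)⟫_ℂ = ff m := inner_mono_left m _
  rw [e] at h
  refine h.congr_fun (fun k => ?_)
  rw [inner_smul_right, inner_mono_left, mono_apply]

lemma ff_apply_zero {m : ℕ} (h : ∀ k, m ≠ ee k) : ff m = 0 := by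
  have h1 := hasSum_ff_apply m
  have h2 : (fun k => (cc k : ℂ) * (if m = ee k then 1 else 0)) = fun _ => 0 := by
    ext k; rw [if_neg (h k), mul_zero]
  rw [h2] at h1
  exact h1.unique hasSum_zero

lemma ff_apply_ee (j : ℕ) : ff (ee j) = cc j := by
  have h1 := hasSum_ff_apply (ee j)
  have h2 := hasSum_single (f := fun k => (cc k : ℂ) * (if ee j = ee k then 1 else 0)) j
    (fun k hk => by
      rw [if_neg (fun h => hk (ee_strictMono.injective h).symm), mul_zero])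
  rw [if_pos rfl, mul_one] at h2
  exact h1.unique h2

lemma ff_zero : ff (ee 0) = 1 := by
  rw [ff_apply_ee]; unfold cc; simp

lemma inner_ffp_vv (n : ℕ) : ⟪ffp, vv n⟫_ℂ = 0 := by
  rw [← inner_conj_symm]
  have h := (innerSL ℂ (vv n)).hasSum summable_gg.hasSum
  simp only [innerSL_apply_apply] at h
  have h2 : (fun k => ⟪vv n, gg k⟫_ℂ) = fun _ => 0 := by
    ext k; rw [← inner_conj_symm, inner_gg_vv, map_zero]
  rw [h2] at h
  have h3 : ⟪vv n, ∑' k, gg k⟫_ℂ = 0 := h.unique hasSum_zero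
  unfold ffp
  rw [h3, map_zero]

/-- Truncated weight. -/
noncomputable def Wm (m : ℕ) (ζ : ℂ) : ℝ := min (Wf phi ζ) m

lemma ci_Wm (m : ℕ) : CircleIntegrable (Wm m) 0 1 := by
  have h := good_phi.int
  unfold CircleIntegrable at h ⊢
  refine h.mono_fun' ?_ ?_
  · have h1 : AEMeasurable (fun θ => Wf phi (circleMap 0 1 θ))
        (volume.restrict (Set.uIoc 0 (2 * Real.pi))) := by
      exact (intervalIntegrable_iff.1 h).aestronglyMeasurable.aemeasurable
    apply AEMeasurable.aestronglyMeasurable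
    unfold Wm
    exact h1.min aemeasurable_const
  · refine Eventually.of_forall (fun θ => ?_)
    simp only
    unfold Wm
    rw [Real.norm_of_nonneg (le_min (Wf_nonneg _ _) (Nat.cast_nonneg m))]
    exact min_le_left _ _

lemma tendsto_Hz_Wm {w : ℂ} (hw : ‖w‖ < 1) :
    Tendsto (fun m => Hz (Wm m) w) atTop (𝓝 (Hz (Wf phi) w)) := by
  apply tendsto_Hz ci_Wm good_phi.int _ _ hw
  · intro m
    refine Eventually.of_forall (fun θ => ?_)
    unfold Wm
    rw [abs_of_nonneg (le_min (Wf_nonneg _ _) (Nat.cast_nonneg m))]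
    exact min_le_left _ _
  · refine Eventually.of_forall (fun θ => ?_)
    apply tendsto_const_nhds.congr'
    obtain ⟨M, hM⟩ := exists_nat_ge (Wf phi (circleMap 0 1 θ))
    filter_upwards [eventually_ge_atTop M] with m hm
    unfold Wm
    rw [min_eq_left]
    exact hM.trans (by exact_mod_cast hm)

/-- Approximate inverse images of the test vectors under multiplication by `af phi`. -/
lemma exists_wm {Ma : H2 →L[ℂ] H2}
    (hMa : ∀ x z, ‖z‖ < 1 → toFun (Ma x) z = af phi z * toFun x z) (v : H2) :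
    ∃ w : ℕ → H2, (∀ m, ‖Ma (w m)‖ ≤ ‖v‖) ∧
      ∀ y : H2, Tendsto (fun m => ⟪y, Ma (w m)⟫_ℂ) atTop (𝓝 ⟪y, v⟫_ℂ) := by
  have h1 : ∀ m : ℕ, ∃ w : H2, ∀ z : ℂ, ‖z‖ < 1 → toFun w z = cexp (Hz (Wm m) z / 2) * toFun v z := by
    intro m
    have hd : DifferentiableOn ℂ (fun z => cexp (Hz (Wm m) z / 2) * toFun v z) (ball 0 1) :=
      (((differentiableOn_Hz (ci_Wm m)).div_const 2).cexp).mul (differentiableOn_toFun v)
    obtain ⟨w, hw, _⟩ := exists_rep hd ((Real.exp (m / 2) : ℂ) • v) (fun z hz => by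
      rw [toFun_smul _ _ hz, norm_mul, norm_mul]
      apply mul_le_mul_of_nonneg_right _ (norm_nonneg _)
      rw [Complex.norm_real, Real.norm_of_nonneg (Real.exp_pos _).le, Complex.norm_exp]
      apply Real.exp_le_exp.2
      have h2 := re_Hz_le (ci_Wm m) (m := m) (fun ζ _ => min_le_right _ _) hz
      have h3 : (Hz (Wm m) z / 2).re = (Hz (Wm m) z).re / 2 := by simp
      rw [h3]; linarith)
    exact ⟨w, hw⟩
  choose w hw using h1
  have h2 : ∀ m z, ‖z‖ < 1 → toFun (Ma (w m)) z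
      = cexp (-(Hz (Wf phi) z) / 2 + Hz (Wm m) z / 2) * toFun v z := by
    intro m z hz
    rw [hMa _ z hz, hw m z hz, ← mul_assoc, Complex.exp_add]
    rfl
  have h3 : ∀ m, ‖Ma (w m)‖ ≤ ‖v‖ := by
    intro m
    obtain ⟨x, hx, hxv⟩ := exists_rep (differentiableOn_toFun (Ma (w m))) v (fun z hz => by
      rw [h2 m z hz, norm_mul]
      apply mul_le_of_le_one_left (norm_nonneg _)
      rw [Complex.norm_exp, Real.exp_le_one_iff]
      have h4 := re_Hz_mono (ci_Wm m) good_phi.int (fun ζ _ => min_le_left _ _) hz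
      have h5 : (-(Hz (Wf phi) z) / 2 + Hz (Wm m) z / 2).re
          = -(Hz (Wf phi) z).re / 2 + (Hz (Wm m) z).re / 2 := by simp
      rw [h5]; linarith)
    have : x = Ma (w m) := toFun_inj hx
    rw [← this]; exact hxv
  refine ⟨w, h3, ?_⟩
  intro y
  apply weak_tendsto h3
  intro z hz
  have h4 : (fun m => toFun (Ma (w m)) z)
      = fun m => cexp (-(Hz (Wf phi) z) / 2 + Hz (Wm m) z / 2) * toFun v z := by
    ext m; exact h2 m z hz
  rw [h4]
  have h5 : Tendsto (fun m => cexp (-(Hz (Wf phi) z) / 2 + Hz (Wm m) z / 2)) atTop (𝓝 1) := by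
    have h6 : Tendsto (fun m => -(Hz (Wf phi) z) / 2 + Hz (Wm m) z / 2) atTop (𝓝 0) := by
      have := ((tendsto_Hz_Wm hz).div_const 2).const_add (-(Hz (Wf phi) z) / 2)
      have e : -(Hz (Wf phi) z) / 2 + Hz (Wf phi) z / 2 = 0 := by ring
      rwa [e] at this
    have := (Complex.continuous_exp.tendsto 0).comp h6
    rwa [Complex.exp_zero] at this
  simpa using h5.mul_const (toFun v z)

end Pool.Agent.MP_ed2161_an
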