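import Pool.Agent.MP_ed2161_an.Hardy

set_option autoImplicit false
open Complex Filter Topology MeasureTheory Metric
open scoped ComplexConjugate InnerProductSpace

namespace Pool.Agent.MP_ed2161_an

lemma norm_sq_eq_tsum (x : H2) : HasSum (fun n => ‖x n‖ ^ 2) (‖x‖ ^ 2) := by
  have h := lp.hasSum_inner (𝕜 := ℂ) x x
  have h2 := h.mapL (RCLike.reCLM : ℂ →L[ℝ] ℝ)
  rw [show RCLike.reCLM ⟪x, x⟫_ℂ = ‖x‖ ^ 2 from by
    rw [RCLike.reCLM_apply]; exact inner_self_eq_norm_sq (𝕜 := ℂ) x] at h2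
  refine h2.congr_fun (fun n => ?_)
  rw [RCLike.reCLM_apply]
  exact (inner_self_eq_norm_sq (𝕜 := ℂ) (x n)).symm

lemma avg_normSq {u : ℕ → ℂ} {F : ℂ → ℂ}
    (hF : ∀ z : ℂ, ‖z‖ < 1 → HasSum (fun n => u n * z ^ n) (F z)) {r : ℝ} (hr : 0 ≤ r)
    (hr1 : r < 1) :
    HasSum (fun n => ‖u n‖ ^ 2 * r ^ (2 * n))
      (Real.circleAverage (fun z => ‖F z‖ ^ 2) 0 r) := by
  have h := avg_conj_mul hF hF hr hr1
  have h2 := h.mapL Complex.reCLM
  have hcont : ContinuousOn F (sphere 0 |r|) := by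
    apply (differentiableOn_of_hasSum hF).continuousOn.mono
    intro z hz
    rw [mem_sphere_zero_iff_norm, abs_of_nonneg hr] at hz
    rw [mem_ball_zero_iff, hz]; exact hr1
  rw [← ContinuousLinearMap.circleAverage_comp_comm] at h2
  · have h3 : (Complex.reCLM ∘ fun z => conj (F z) * F z) = fun z => ‖F z‖ ^ 2 := by
      ext z
      simp only [Function.comp, Complex.reCLM_apply]
      rw [mul_comm, Complex.mul_conj, Complex.ofReal_re, Complex.normSq_eq_norm_sq]
    rw [h3] at h2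
    refine h2.congr_fun (fun n => ?_)
    rw [Complex.reCLM_apply]
    have : conj (u n) * u n * (r : ℂ) ^ (2 * n) = ((‖u n‖ ^ 2 * r ^ (2 * n) : ℝ) : ℂ) := by
      rw [mul_comm (conj (u n)), Complex.mul_conj, Complex.normSq_eq_norm_sq]
      push_cast; ring
    rw [this, Complex.ofReal_re]
  · apply ContinuousOn.circleIntegrable'
    exact (Complex.continuous_conj.comp_continuousOn hcont).mul hcont

/-- An analytic function dominated by a Hardy space function is in the Hardy space. -/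
lemma exists_rep {F : ℂ → ℂ} (hF : DifferentiableOn ℂ F (ball 0 1)) (y : H2)
    (h : ∀ z : ℂ, ‖z‖ < 1 → ‖F z‖ ≤ ‖toFun y z‖) :
    ∃ x : H2, (∀ z : ℂ, ‖z‖ < 1 → toFun x z = F z) ∧ ‖x‖ ≤ ‖y‖ := by
  have hFs : ∀ z : ℂ, ‖z‖ < 1 → HasSum (fun n => tc F n * z ^ n) (F z) :=
    fun z hz => hasSum_tc hF hz
  have key : ∀ (s : Finset ℕ) (r : ℝ), 0 ≤ r → r < 1 →
      ∑ n ∈ s, ‖tc F n‖ ^ 2 * r ^ (2 * n) ≤ ‖y‖ ^ 2 := by
    intro s r hr hr1
    have h1 := avg_normSq hFs hr hr1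
    have h2 := avg_normSq (fun z hz => hasSum_toFun y hz) hr hr1
    have hmem : ∀ z ∈ sphere (0:ℂ) |r|, ‖z‖ < 1 := by
      intro z hz
      rw [mem_sphere_zero_iff_norm, abs_of_nonneg hr] at hz
      rw [hz]; exact hr1
    have hmem' : sphere (0:ℂ) |r| ⊆ ball 0 1 := fun z hz => by
      rw [mem_ball_zero_iff]; exact hmem z hz
    have h3 : Real.circleAverage (fun z => ‖F z‖ ^ 2) 0 r
        ≤ Real.circleAverage (fun z => ‖toFun y z‖ ^ 2) 0 r := by
      apply Real.circleAverage_mono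
      · exact ContinuousOn.circleIntegrable' ((hF.continuousOn.mono hmem').norm.pow 2)
      · exact ContinuousOn.circleIntegrable'
          (((differentiableOn_toFun y).continuousOn.mono hmem').norm.pow 2)
      · intro z hz
        have := h z (hmem z hz)
        gcongr
    have h4 : Real.circleAverage (fun z => ‖toFun y z‖ ^ 2) 0 r ≤ ‖y‖ ^ 2 := by
      refine hasSum_le (fun n => ?_) h2 (norm_sq_eq_tsum y)
      have : r ^ (2 * n) ≤ 1 := pow_le_one₀ hr hr1.le
      nlinarith [sq_nonneg ‖y n‖]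
    calc ∑ n ∈ s, ‖tc F n‖ ^ 2 * r ^ (2 * n) ≤ Real.circleAverage (fun z => ‖F z‖ ^ 2) 0 r :=
          sum_le_hasSum s (fun n _ => by positivity) h1
      _ ≤ _ := h3.trans h4
  have key2 : ∀ s : Finset ℕ, ∑ n ∈ s, ‖tc F n‖ ^ 2 ≤ ‖y‖ ^ 2 := by
    intro s
    have hcont : Continuous (fun r : ℝ => ∑ n ∈ s, ‖tc F n‖ ^ 2 * r ^ (2 * n)) := by fun_prop
    have ht : Tendsto (fun r : ℝ => ∑ n ∈ s, ‖tc F n‖ ^ 2 * r ^ (2 * n)) (𝓝[<] 1)
        (𝓝 (∑ n ∈ s, ‖tc F n‖ ^ 2 * (1:ℝ) ^ (2 * n))) :=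
      (hcont.tendsto 1).mono_left nhdsWithin_le_nhds
    have := le_of_tendsto ht (by
      filter_upwards [Ioo_mem_nhdsLT (show (0:ℝ) < 1 by norm_num)] with r hr
      exact key s r hr.1.le hr.2)
    simpa using this
  have hmem : Memℓp (fun n => tc F n) 2 := by
    apply memℓp_gen' (C := ‖y‖ ^ 2)
    intro s
    have := key2 s
    simpa using this
  refine ⟨⟨fun n => tc F n, hmem⟩, ?_, ?_⟩
  · intro z hz
    exact (hFs z hz).tsum_eq
  · apply lp.norm_le_of_forall_sum_le (by norm_num) (norm_nonneg y)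
    intro s
    have := key2 s
    simpa using this

lemma tendsto_avg_inner (x y : H2) :
    Tendsto (fun r : ℝ => Real.circleAverage (fun z => conj (toFun x z) * toFun y z) 0 r)
      (𝓝[<] 1) (𝓝 ⟪x, y⟫_ℂ) := by
  have h1 : ⟪x, y⟫_ℂ = ∑' n, conj (x n) * y n := by
    rw [lp.inner_eq_tsum (𝕜 := ℂ)]
    congr 1; ext n
    rw [RCLike.inner_apply, mul_comm]
  have h2 : Tendsto (fun r : ℝ => ∑' n, conj (x n) * y n * (r : ℂ) ^ (2 * n)) (𝓝[<] 1)
      (𝓝 (∑' n, conj (x n) * y n)) := by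
    apply tendsto_tsum_of_dominated_convergence (bound := fun n => ‖x n‖ * ‖y n‖)
    · have := (lp.summable_inner (𝕜 := ℂ) x y).norm
      refine this.congr (fun n => ?_)
      rw [RCLike.inner_apply, norm_mul, RCLike.norm_conj, mul_comm]
    · intro n
      have hc : Continuous (fun r : ℝ => conj (x n) * y n * (r : ℂ) ^ (2 * n)) := by fun_prop
      have := (hc.tendsto 1).mono_left (nhdsWithin_le_nhds (s := Set.Iio 1))
      simpa using this
    · filter_upwards [Ioo_mem_nhdsLT (show (0:ℝ) < 1 by norm_num)] with r hr n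
      rw [norm_mul, norm_mul, RCLike.norm_conj, norm_pow, Complex.norm_real,
        Real.norm_of_nonneg hr.1.le]
      have : r ^ (2 * n) ≤ 1 := pow_le_one₀ hr.1.le hr.2.le
      nlinarith [mul_nonneg (norm_nonneg (x n)) (norm_nonneg (y n))]
  rw [h1]
  refine h2.congr' ?_
  filter_upwards [Ioo_mem_nhdsLT (show (0:ℝ) < 1 by norm_num)] with r hr
  exact (avg_conj_mul (fun z hz => hasSum_toFun x hz) (fun z hz => hasSum_toFun y hz)
    hr.1.le hr.2).tsum_eq

lemma hasSum_mono (x : H2) : HasSum (fun n => x n • mono n) x := by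
  have := lp.hasSum_single (p := 2) (by norm_num) x
  refine this.congr_fun (fun n => ?_)
  unfold mono
  rw [← lp.single_smul]
  simp

lemma clm_ext {G : Type*} [NormedAddCommGroup G] [NormedSpace ℂ G] {L L' : H2 →L[ℂ] G}
    (h : ∀ n, L (mono n) = L' (mono n)) : L = L' := by
  ext x
  have h1 := L.hasSum (hasSum_mono x)
  have h2 := L'.hasSum (hasSum_mono x)
  have h3 : (fun n => L (x n • mono n)) = fun n => L' (x n • mono n) := by
    ext n; rw [map_smul, map_smul, h]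
  rw [h3] at h1
  exact h1.unique h2

end Pool.Agent.MP_ed2161_an
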