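import Pool.Agent.MP_ed2161_an.Abstr
import Pool.Agent.MP_ed2161_an.Herg

set_option autoImplicit false
open Complex Filter Topology MeasureTheory Metric
open scoped ComplexConjugate InnerProductSpace

namespace Pool.Agent.MP_ed2161_an

/-- The logarithmic weight attached to a symbol. -/
noncomputable def Wf (φ : ℂ → ℂ) (z : ℂ) : ℝ := Real.log (1 + ‖φ z‖ ^ 2)

/-- The outer function with modulus `(1 + |φ|^2)^(-1/2)` on the circle. -/
noncomputable def af (φ : ℂ → ℂ) (w : ℂ) : ℂ := cexp (-(Hz (Wf φ) w) / 2)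

/-- The function `φ` times the outer function. -/
noncomputable def bf (φ : ℂ → ℂ) (w : ℂ) : ℂ := φ w * af φ w

/-- Regularity conditions on a symbol. -/
structure Good (φ : ℂ → ℂ) : Prop where
  diff : DifferentiableOn ℂ φ (ball 0 1)
  bdry : ∀ᵐ θ : ℝ, DifferentiableAt ℂ φ (circleMap 0 1 θ)
  int : CircleIntegrable (Wf φ) 0 1

lemma Wf_nonneg (φ : ℂ → ℂ) (z : ℂ) : 0 ≤ Wf φ z :=
  Real.log_nonneg (by nlinarith [sq_nonneg ‖φ z‖])

lemma exp_Wf (φ : ℂ → ℂ) (z : ℂ) : Real.exp (Wf φ z) = 1 + ‖φ z‖ ^ 2 :=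
  Real.exp_log (by positivity)

lemma af_diff {φ : ℂ → ℂ} (hφ : Good φ) : DifferentiableOn ℂ (af φ) (ball 0 1) := by
  unfold af
  exact (((differentiableOn_Hz hφ.int).neg).div_const 2).cexp

lemma bf_diff {φ : ℂ → ℂ} (hφ : Good φ) : DifferentiableOn ℂ (bf φ) (ball 0 1) :=
  hφ.diff.mul (af_diff hφ)

lemma norm_cexp_neg_half (l : ℂ) : ‖cexp (-l / 2)‖ ^ 2 = Real.exp (-l.re) := by
  rw [Complex.norm_exp, ← Real.exp_nat_mul]
  congr 1
  simp
  ring

lemma norm_cexp_neg_half' (l : ℂ) : ‖cexp (-l / 2)‖ = Real.exp (-l.re / 2) := by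
  rw [Complex.norm_exp]
  congr 1
  simp

lemma norm_af_le {φ : ℂ → ℂ} (hφ : Good φ) {w : ℂ} (hw : ‖w‖ < 1) : ‖af φ w‖ ≤ 1 := by
  unfold af
  rw [norm_cexp_neg_half', Real.exp_le_one_iff]
  have := re_Hz_nonneg hφ.int (fun ζ _ => Wf_nonneg φ ζ) hw
  linarith

lemma tendsto_circleMap (θ : ℝ) :
    Tendsto (fun r : ℝ => circleMap 0 r θ) (𝓝[<] 1) (𝓝 (circleMap 0 1 θ)) := by
  have : Continuous (fun r : ℝ => circleMap 0 r θ) := by unfold circleMap; fun_prop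
  exact (this.tendsto 1).mono_left nhdsWithin_le_nhds

lemma boundary_limit {φ : ℂ → ℂ} (hφ : Good φ) :
    ∀ᵐ θ : ℝ, ∃ l : ℂ, l.re = Wf φ (circleMap 0 1 θ) ∧
      Tendsto (fun r : ℝ => Hz (Wf φ) (circleMap 0 r θ)) (𝓝[<] 1) (𝓝 l) ∧
      Tendsto (fun r : ℝ => φ (circleMap 0 r θ)) (𝓝[<] 1) (𝓝 (φ (circleMap 0 1 θ))) := by
  filter_upwards [hφ.bdry] with θ hθ
  have h1 : Tendsto (fun r : ℝ => φ (circleMap 0 r θ)) (𝓝[<] 1) (𝓝 (φ (circleMap 0 1 θ))) :=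
    hθ.continuousAt.tendsto.comp (tendsto_circleMap θ)
  -- differentiability of the weight along the circle
  have h2 : DifferentiableAt ℝ (fun t : ℝ => φ (circleMap 0 1 (θ + t))) 0 := by
    have e1 : DifferentiableAt ℝ (fun t : ℝ => circleMap 0 1 (θ + t)) 0 := by
      unfold circleMap
      fun_prop
    have e2 : DifferentiableAt ℝ φ (circleMap 0 1 (θ + 0)) := by
      rw [add_zero]; exact hθ.restrictScalars ℝ
    exact e2.comp (0:ℝ) e1
  have h3 : DifferentiableAt ℝ (fun t : ℝ => Wf φ (circleMap 0 1 (θ + t))) 0 := by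
    unfold Wf
    apply DifferentiableAt.log
    · apply DifferentiableAt.const_add
      exact h2.norm_sq ℝ
    · positivity
  have h4 := h3.isBigO_sub
  rw [Asymptotics.isBigO_iff] at h4
  obtain ⟨L, hL⟩ := h4
  rw [Metric.eventually_nhds_iff] at hL
  obtain ⟨δ, hδ, hL⟩ := hL
  obtain ⟨l, hl1, hl2⟩ := radial_Hz hφ.int (θ₀ := θ) (L := L) hδ (fun t ht => by
    have := hL (y := t) (by rwa [Real.dist_eq, sub_zero])
    simpa using this)
  exact ⟨l, hl1, hl2, h1⟩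

lemma boundary_pair {φ : ℂ → ℂ} (hφ : Good φ) :
    ∀ᵐ θ : ℝ, Tendsto
      (fun r : ℝ => ‖af φ (circleMap 0 r θ)‖ ^ 2 + ‖bf φ (circleMap 0 r θ)‖ ^ 2) (𝓝[<] 1) (𝓝 1) := by
  filter_upwards [boundary_limit hφ] with θ hθ
  obtain ⟨l, hl, h1, h2⟩ := hθ
  have h3 : Tendsto (fun r : ℝ => ‖af φ (circleMap 0 r θ)‖ ^ 2) (𝓝[<] 1)
      (𝓝 (Real.exp (-l.re))) := by
    have : (fun r : ℝ => ‖af φ (circleMap 0 r θ)‖ ^ 2)
        = fun r : ℝ => Real.exp (-(Hz (Wf φ) (circleMap 0 r θ)).re) := by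
      ext r; unfold af; rw [norm_cexp_neg_half]
    rw [this]
    exact (Real.continuous_exp.tendsto _).comp
      (((Complex.continuous_re.tendsto _).comp h1).neg)
  have h4 := h3.add ((h2.norm.pow 2).mul h3)
  have h5 : Real.exp (-l.re) + ‖φ (circleMap 0 1 θ)‖ ^ 2 * Real.exp (-l.re) = 1 := by
    rw [hl, Real.exp_neg, exp_Wf]
    field_simp
  rw [h5] at h4
  refine h4.congr (fun r => ?_)
  unfold bf
  rw [norm_mul]
  ring

/-- Multiplication operators of a good pair. -/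
theorem pair_of_good {φ : ℂ → ℂ} (hφ : Good φ) {C : ℝ} (hC : ∀ z : ℂ, ‖z‖ < 1 → ‖bf φ z‖ ≤ C) :
    ∃ Ma Mb : H2 →L[ℂ] H2, (∀ x y, ⟪Ma x, Ma y⟫_ℂ + ⟪Mb x, Mb y⟫_ℂ = ⟪x, y⟫_ℂ) ∧
      (∀ x z, ‖z‖ < 1 → toFun (Ma x) z = af φ z * toFun x z) ∧
      (∀ x z, ‖z‖ < 1 → toFun (Mb x) z = bf φ z * toFun x z) := by
  apply exists_mult (af_diff hφ) (bf_diff hφ) (C := max 1 C) _ (boundary_pair hφ)
  intro z hz
  exact ⟨(norm_af_le hφ hz).trans (le_max_left _ _), (hC z hz).trans (le_max_right _ _)⟩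

lemma log_one_sub_bound {w : ℝ} (hw : 0 ≤ w) :
    Real.sqrt (1 - Real.exp (-w)) < 1 ∧
    |Real.log (1 - Real.sqrt (1 - Real.exp (-w)))| ≤ w + Real.log 2 := by
  set x := Real.sqrt (1 - Real.exp (-w)) with hx
  have h1 : Real.exp (-w) ≤ 1 := Real.exp_le_one_iff.2 (by linarith)
  have h2 : x ^ 2 = 1 - Real.exp (-w) := Real.sq_sqrt (by linarith)
  have h0 : 0 ≤ x := Real.sqrt_nonneg _
  have hpos := Real.exp_pos (-w)
  have h3 : x < 1 := by nlinarith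
  refine ⟨h3, ?_⟩
  have h4 : Real.exp (-w) / 2 ≤ 1 - x := by nlinarith
  have h5 : Real.log (Real.exp (-w) / 2) ≤ Real.log (1 - x) := Real.log_le_log (by positivity) h4
  rw [Real.log_div (by positivity) (by norm_num), Real.log_exp] at h5
  have h6 : Real.log (1 - x) ≤ 0 := Real.log_nonpos (by linarith) (by linarith)
  rw [abs_of_nonpos h6]
  linarith

/-- Boundary values of `b` and the non-extreme condition. -/
lemma bstar_exists {φ : ℂ → ℂ} (hφ : Good φ) :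
    ∃ bstar : ℝ → ℂ,
        (∀ᵐ θ : ℝ, Tendsto (fun r : ℝ => bf φ ((r : ℂ) * Complex.exp ((θ : ℂ) * I)))
            (𝓝[<] (1 : ℝ)) (𝓝 (bstar θ))) ∧
        (∀ᵐ θ : ℝ, ‖bstar θ‖ < 1) ∧
        IntegrableOn (fun θ : ℝ => Real.log (1 - ‖bstar θ‖)) (Set.Icc 0 (2 * Real.pi)) := by
  classical
  have h1 : ∀ θ : ℝ, ∃ v : ℂ, (∃ l : ℂ, l.re = Wf φ (circleMap 0 1 θ) ∧
      Tendsto (fun r : ℝ => Hz (Wf φ) (circleMap 0 r θ)) (𝓝[<] 1) (𝓝 l) ∧
      Tendsto (fun r : ℝ => φ (circleMap 0 r θ)) (𝓝[<] 1) (𝓝 (φ (circleMap 0 1 θ)))) →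
      Tendsto (fun r : ℝ => bf φ (circleMap 0 r θ)) (𝓝[<] 1) (𝓝 v) ∧
      ‖v‖ = Real.sqrt (1 - Real.exp (-(Wf φ (circleMap 0 1 θ)))) := by
    intro θ
    by_cases h : ∃ l : ℂ, l.re = Wf φ (circleMap 0 1 θ) ∧
      Tendsto (fun r : ℝ => Hz (Wf φ) (circleMap 0 r θ)) (𝓝[<] 1) (𝓝 l) ∧
      Tendsto (fun r : ℝ => φ (circleMap 0 r θ)) (𝓝[<] 1) (𝓝 (φ (circleMap 0 1 θ)))
    · obtain ⟨l, hl, h1, h2⟩ := h
      refine ⟨φ (circleMap 0 1 θ) * cexp (-l / 2), fun _ => ⟨?_, ?_⟩⟩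
      · unfold bf af
        apply h2.mul
        exact (Complex.continuous_exp.tendsto _).comp ((h1.neg).div_const 2)
      · have e1 : ‖φ (circleMap 0 1 θ) * cexp (-l / 2)‖ ^ 2
            = 1 - Real.exp (-(Wf φ (circleMap 0 1 θ))) := by
          rw [norm_mul, mul_pow, norm_cexp_neg_half, hl]
          have e2 : ‖φ (circleMap 0 1 θ)‖ ^ 2 = Real.exp (Wf φ (circleMap 0 1 θ)) - 1 := by
            rw [exp_Wf]; ring
          rw [e2, sub_mul, ← Real.exp_add]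
          simp
        rw [← e1, Real.sqrt_sq (norm_nonneg _)]
    · exact ⟨0, fun h' => absurd h' h⟩
  choose v hv using h1
  have hae : ∀ᵐ θ : ℝ, Tendsto (fun r : ℝ => bf φ (circleMap 0 r θ)) (𝓝[<] 1) (𝓝 (v θ)) ∧
      ‖v θ‖ = Real.sqrt (1 - Real.exp (-(Wf φ (circleMap 0 1 θ)))) := by
    filter_upwards [boundary_limit hφ] with θ hθ using hv θ hθ
  refine ⟨v, ?_, ?_, ?_⟩
  · filter_upwards [hae] with θ hθ
    refine hθ.1.congr (fun r => ?_)
    simp [circleMap]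
  · filter_upwards [hae] with θ hθ
    rw [hθ.2]
    exact (log_one_sub_bound (Wf_nonneg φ _)).1
  · have hint : IntegrableOn (fun θ : ℝ => Wf φ (circleMap 0 1 θ)) (Set.Icc 0 (2 * Real.pi)) := by
      have := hφ.int
      unfold CircleIntegrable at this
      rw [intervalIntegrable_iff_integrableOn_Icc_of_le (by positivity)] at this
      exact this
    have hmeas : AEStronglyMeasurable (fun θ : ℝ =>
        Real.log (1 - Real.sqrt (1 - Real.exp (-(Wf φ (circleMap 0 1 θ))))))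
        (volume.restrict (Set.Icc 0 (2 * Real.pi))) := by
      have h := hint.aestronglyMeasurable.aemeasurable
      apply AEMeasurable.aestronglyMeasurable
      fun_prop
    have hb : IntegrableOn (fun θ : ℝ =>
        Real.log (1 - Real.sqrt (1 - Real.exp (-(Wf φ (circleMap 0 1 θ))))))
        (Set.Icc 0 (2 * Real.pi)) := by
      refine Integrable.mono' (g := fun θ => Wf φ (circleMap 0 1 θ) + Real.log 2) ?_ hmeas ?_
      · exact hint.add (integrable_const _)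
      · refine Eventually.of_forall (fun θ => ?_)
        exact (log_one_sub_bound (Wf_nonneg φ _)).2
    refine hb.congr ?_
    filter_upwards [ae_restrict_of_ae hae] with θ hθ
    rw [hθ.2]

end Pool.Agent.MP_ed2161_an
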