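import Pool.Agent.MP_ed2161_an.Mult

set_option autoImplicit false
open Complex Filter Topology MeasureTheory Metric
open scoped ComplexConjugate InnerProductSpace

namespace Pool.Agent.MP_ed2161_an

lemma exists_rep_mul {a : ℂ → ℂ} (ha : DifferentiableOn ℂ a (ball 0 1)) {C : ℝ}
    (hC : ∀ z : ℂ, ‖z‖ < 1 → ‖a z‖ ≤ C) (n : ℕ) :
    ∃ x : H2, (∀ z : ℂ, ‖z‖ < 1 → toFun x z = z ^ n * a z) := by
  have h1 : DifferentiableOn ℂ (fun z => z ^ n * a z) (ball 0 1) :=
    (differentiable_pow n).differentiableOn.mul ha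
  obtain ⟨x, hx, _⟩ := exists_rep h1 ((C : ℂ) • mono 0) (fun z hz => by
    rw [toFun_smul _ _ hz, toFun_mono _ hz, pow_zero, mul_one, norm_mul, norm_pow]
    have h2 := hC z hz
    have h3 : 0 ≤ C := (norm_nonneg _).trans h2
    rw [Complex.norm_real, Real.norm_of_nonneg h3]
    calc ‖z‖ ^ n * ‖a z‖ ≤ 1 * C := by
          apply mul_le_mul (pow_le_one₀ (norm_nonneg z) hz.le) h2 (norm_nonneg _) zero_le_one
      _ = C := one_mul C)
  exact ⟨x, hx⟩

lemma gram_eq {a b : ℂ → ℂ} (ha : DifferentiableOn ℂ a (ball 0 1))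
    (hb : DifferentiableOn ℂ b (ball 0 1)) {C : ℝ}
    (hC : ∀ z : ℂ, ‖z‖ < 1 → ‖a z‖ ≤ C ∧ ‖b z‖ ≤ C)
    (hlim : ∀ᵐ θ : ℝ, Tendsto
      (fun r : ℝ => ‖a (circleMap 0 r θ)‖ ^ 2 + ‖b (circleMap 0 r θ)‖ ^ 2) (𝓝[<] 1) (𝓝 1))
    {An Am Bn Bm : H2} (n m : ℕ)
    (hAn : ∀ z : ℂ, ‖z‖ < 1 → toFun An z = z ^ n * a z)
    (hAm : ∀ z : ℂ, ‖z‖ < 1 → toFun Am z = z ^ m * a z)
    (hBn : ∀ z : ℂ, ‖z‖ < 1 → toFun Bn z = z ^ n * b z)
    (hBm : ∀ z : ℂ, ‖z‖ < 1 → toFun Bm z = z ^ m * b z) :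
    ⟪An, Am⟫_ℂ + ⟪Bn, Bm⟫_ℂ = if n = m then 1 else 0 := by
  have h1 := (tendsto_avg_inner An Am).add (tendsto_avg_inner Bn Bm)
  have h2 : Tendsto (fun r : ℝ => Real.circleAverage (fun z => (conj z) ^ n * z ^ m *
      ((‖a z‖ ^ 2 + ‖b z‖ ^ 2 : ℝ) : ℂ)) 0 r) (𝓝[<] 1)
      (𝓝 (Real.circleAverage (fun z => (conj z) ^ n * z ^ m * 1) 0 1)) := by
    unfold Real.circleAverage
    apply Tendsto.const_smul
    apply intervalIntegral.tendsto_integral_filter_of_dominated_convergence
      (fun _ => C ^ 2 + C ^ 2)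
    · filter_upwards [Ioo_mem_nhdsLT (show (0:ℝ) < 1 by norm_num)] with r hr
      apply Continuous.aestronglyMeasurable
      have hm : ∀ θ : ℝ, circleMap 0 r θ ∈ ball (0:ℂ) 1 := fun θ => by
        rw [mem_ball_zero_iff, norm_circleMap_zero, abs_of_nonneg hr.1.le]; exact hr.2
      have c1 : Continuous (fun θ : ℝ => a (circleMap 0 r θ)) :=
        ha.continuousOn.comp_continuous (continuous_circleMap 0 r) hm
      have c2 : Continuous (fun θ : ℝ => b (circleMap 0 r θ)) :=
        hb.continuousOn.comp_continuous (continuous_circleMap 0 r) hm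
      exact (((Complex.continuous_conj.comp (continuous_circleMap 0 r)).pow n).mul
        ((continuous_circleMap 0 r).pow m)).mul
        (Complex.continuous_ofReal.comp ((c1.norm.pow 2).add (c2.norm.pow 2)))
    · filter_upwards [Ioo_mem_nhdsLT (show (0:ℝ) < 1 by norm_num)] with r hr
      refine Eventually.of_forall (fun θ _ => ?_)
      have hz : ‖circleMap 0 r θ‖ < 1 := by
        rw [norm_circleMap_zero, abs_of_nonneg hr.1.le]; exact hr.2
      obtain ⟨h3, h4⟩ := hC _ hz
      rw [norm_mul, norm_mul, norm_pow, norm_pow, RCLike.norm_conj, Complex.norm_real,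
        Real.norm_of_nonneg (by positivity)]
      have h5 : ‖circleMap 0 r θ‖ ^ n ≤ 1 := pow_le_one₀ (norm_nonneg _) hz.le
      have h6 : ‖circleMap 0 r θ‖ ^ m ≤ 1 := pow_le_one₀ (norm_nonneg _) hz.le
      have h7 : ‖circleMap 0 r θ‖ ^ n * ‖circleMap 0 r θ‖ ^ m ≤ 1 :=
        mul_le_one₀ h5 (by positivity) h6
      calc ‖circleMap 0 r θ‖ ^ n * ‖circleMap 0 r θ‖ ^ m *
            (‖a (circleMap 0 r θ)‖ ^ 2 + ‖b (circleMap 0 r θ)‖ ^ 2)
          ≤ 1 * (‖a (circleMap 0 r θ)‖ ^ 2 + ‖b (circleMap 0 r θ)‖ ^ 2) := by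
            apply mul_le_mul_of_nonneg_right h7 (by positivity)
        _ ≤ C ^ 2 + C ^ 2 := by
            rw [one_mul]
            gcongr
    · exact intervalIntegrable_const
    · filter_upwards [hlim] with θ hθ _
      apply Tendsto.mul
      · have hc : Continuous (fun r : ℝ => (conj (circleMap 0 r θ)) ^ n * (circleMap 0 r θ) ^ m) := by
          unfold circleMap; fun_prop
        exact (hc.tendsto 1).mono_left nhdsWithin_le_nhds
      · have := (Complex.continuous_ofReal.tendsto 1).comp hθ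
        simpa only [Function.comp_def, Complex.ofReal_one] using this
  have h3 : Real.circleAverage (fun z : ℂ => (conj z) ^ n * z ^ m * 1) 0 1
      = if n = m then 1 else 0 := by
    have := avg_mono n m (r := 1) zero_le_one
    simpa using this
  rw [h3] at h2
  refine tendsto_nhds_unique h1 (h2.congr' ?_)
  filter_upwards [Ioo_mem_nhdsLT (show (0:ℝ) < 1 by norm_num)] with r hr
  have hm : ∀ z ∈ sphere (0:ℂ) |r|, ‖z‖ < 1 := fun z hz => by
    rw [mem_sphere_zero_iff_norm, abs_of_nonneg hr.1.le] at hz; rw [hz]; exact hr.2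
  have hm' : sphere (0:ℂ) |r| ⊆ ball 0 1 := fun z hz => by
    rw [mem_ball_zero_iff]; exact hm z hz
  have ci : ∀ x y : H2, CircleIntegrable (fun z => conj (toFun x z) * toFun y z) 0 r := by
    intro x y
    apply ContinuousOn.circleIntegrable'
    exact (Complex.continuous_conj.comp_continuousOn
      ((differentiableOn_toFun x).continuousOn.mono hm')).mul
      ((differentiableOn_toFun y).continuousOn.mono hm')
  rw [← Real.circleAverage_fun_add (ci _ _) (ci _ _)]
  apply Real.circleAverage_congr_sphere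
  intro z hz
  have hz' := hm z hz
  simp only
  rw [hAn z hz', hAm z hz', hBn z hz', hBm z hz']
  push_cast
  rw [← Complex.mul_conj', ← Complex.mul_conj', map_mul, map_mul, map_pow]
  ring

/-- Pairs of bounded analytic functions whose moduli squares add up to one on the circle give
an isometric column of multiplication operators. -/
theorem exists_mult {a b : ℂ → ℂ} (ha : DifferentiableOn ℂ a (ball 0 1))
    (hb : DifferentiableOn ℂ b (ball 0 1)) {C : ℝ}
    (hC : ∀ z : ℂ, ‖z‖ < 1 → ‖a z‖ ≤ C ∧ ‖b z‖ ≤ C)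
    (hlim : ∀ᵐ θ : ℝ, Tendsto
      (fun r : ℝ => ‖a (circleMap 0 r θ)‖ ^ 2 + ‖b (circleMap 0 r θ)‖ ^ 2) (𝓝[<] 1) (𝓝 1)) :
    ∃ Ma Mb : H2 →L[ℂ] H2, (∀ x y, ⟪Ma x, Ma y⟫_ℂ + ⟪Mb x, Mb y⟫_ℂ = ⟪x, y⟫_ℂ) ∧
      (∀ x z, ‖z‖ < 1 → toFun (Ma x) z = a z * toFun x z) ∧
      (∀ x z, ‖z‖ < 1 → toFun (Mb x) z = b z * toFun x z) := by
  choose A hA using fun n => exists_rep_mul ha (fun z hz => (hC z hz).1) n
  choose B hB using fun n => exists_rep_mul hb (fun z hz => (hC z hz).2) n
  set v : ℕ → WithLp 2 (H2 × H2) := fun n => WithLp.toLp 2 (A n, B n) with hv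
  have hon : Orthonormal ℂ v := by
    rw [orthonormal_iff_ite]
    intro i j
    rw [WithLp.prod_inner_apply]
    exact gram_eq ha hb hC hlim i j (hA i) (hA j) (hB i) (hB j)
  set V : H2 →ₗᵢ[ℂ] WithLp 2 (H2 × H2) := hon.orthogonalFamily.linearIsometry with hV
  have hVm : ∀ n, V (mono n) = v n := by
    intro n
    rw [hV]
    unfold mono
    rw [OrthogonalFamily.linearIsometry_apply_single]
    simp
  set Ma : H2 →L[ℂ] H2 := (WithLp.fstL 2 ℂ H2 H2).comp V.toContinuousLinearMap with hMa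
  set Mb : H2 →L[ℂ] H2 := (WithLp.sndL 2 ℂ H2 H2).comp V.toContinuousLinearMap with hMb
  have hMam : ∀ n, Ma (mono n) = A n := by
    intro n
    rw [hMa, ContinuousLinearMap.comp_apply]
    change WithLp.fstL 2 ℂ H2 H2 (V (mono n)) = A n
    rw [hVm]; rfl
  have hMbm : ∀ n, Mb (mono n) = B n := by
    intro n
    rw [hMb, ContinuousLinearMap.comp_apply]
    change WithLp.sndL 2 ℂ H2 H2 (V (mono n)) = B n
    rw [hVm]; rfl
  refine ⟨Ma, Mb, ?_, ?_, ?_⟩
  · intro x y
    have := V.inner_map_map x y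
    rw [WithLp.prod_inner_apply] at this
    exact this
  · intro x z hz
    have : (innerSL ℂ (kern z)).comp Ma = (a z) • (innerSL ℂ (kern z)) := by
      apply clm_ext
      intro n
      rw [ContinuousLinearMap.comp_apply, hMam, smul_apply]
      simp only [innerSL_apply_apply, smul_eq_mul]
      rw [inner_kern hz, inner_kern hz, hA n z hz, toFun_mono n hz]
      ring
    have h2 := congrArg (fun L => L x) this
    simp only [ContinuousLinearMap.comp_apply, smul_apply, innerSL_apply_apply,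
      smul_eq_mul] at h2
    rwa [inner_kern hz, inner_kern hz] at h2
  · intro x z hz
    have : (innerSL ℂ (kern z)).comp Mb = (b z) • (innerSL ℂ (kern z)) := by
      apply clm_ext
      intro n
      rw [ContinuousLinearMap.comp_apply, hMbm, smul_apply]
      simp only [innerSL_apply_apply, smul_eq_mul]
      rw [inner_kern hz, inner_kern hz, hB n z hz, toFun_mono n hz]
      ring
    have h2 := congrArg (fun L => L x) this
    simp only [ContinuousLinearMap.comp_apply, smul_apply, innerSL_apply_apply,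
      smul_eq_mul] at h2
    rwa [inner_kern hz, inner_kern hz] at h2

end Pool.Agent.MP_ed2161_an
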