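import Pool.Agent.MP_ed2161_an.Chain

set_option autoImplicit false
open Complex Filter Topology MeasureTheory Metric
open scoped ComplexConjugate InnerProductSpace

namespace Pool.Agent.MP_ed2161_an

/-- Coefficients of `phiK K * F`. -/
noncomputable def cfull (K : ℕ) (u : ℕ → ℂ) (m : ℕ) : ℂ :=
  ∑ j ∈ Finset.range K, ((AA j : ℂ) * cf j 0 u m - (BB j : ℂ) * cf j (ee (j + 1) - ee j) u m)

lemma hasSum_cfull (K : ℕ) {u : ℕ → ℂ} {v z : ℂ} (h : HasSum (fun n => u n * z ^ n) v) :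
    HasSum (fun m => cfull K u m * z ^ m) (phiK K z * v) := by
  have h1 : HasSum (fun m => ∑ j ∈ Finset.range K, ((AA j : ℂ) * (cf j 0 u m * z ^ m)
      - (BB j : ℂ) * (cf j (ee (j + 1) - ee j) u m * z ^ m)))
      (∑ j ∈ Finset.range K, ((AA j : ℂ) * (z ^ 0 * PP j z * v)
        - (BB j : ℂ) * (z ^ (ee (j + 1) - ee j) * PP j z * v))) :=
    hasSum_sum (fun j _ => ((hasSum_cf j 0 h).mul_left _).sub ((hasSum_cf j _ h).mul_left _))
  have h2 : (∑ j ∈ Finset.range K, ((AA j : ℂ) * (z ^ 0 * PP j z * v)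
        - (BB j : ℂ) * (z ^ (ee (j + 1) - ee j) * PP j z * v))) = phiK K z * v := by
    unfold phiK
    rw [Finset.sum_mul]
    refine Finset.sum_congr rfl (fun j _ => ?_)
    unfold EE
    ring
  rw [h2] at h1
  refine h1.congr_fun (fun m => ?_)
  unfold cfull
  rw [Finset.sum_mul]
  refine Finset.sum_congr rfl (fun j _ => ?_)
  ring

lemma ee_lt {j k : ℕ} (h : j < k) : 256 * ee j ≤ ee k := by
  have := NN_lt h
  rw [ee_eq, ee_eq]; omega

/-- The full coefficient functional at exponent `ee k`. -/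
noncomputable def Dfull (k : ℕ) : H2 :=
  ∑ j ∈ Finset.range (k + 1), (AA j : ℂ) • qq j (ee k - ee j)
    - ∑ j ∈ Finset.range k, (BB j : ℂ) • qq j (ee k - ee (j + 1))

noncomputable def Dv (K k : ℕ) : H2 :=
  if k < K then Dfull k else Dfull k - (AA k : ℂ) • qq k 0

lemma cf_left {j k : ℕ} (h : j ≤ k) (x : H2) :
    cf j 0 x (ee k) = ⟪qq j (ee k - ee j), x⟫_ℂ := by
  have h1 := NN_mono h
  have h2 := NN_pos j
  have h3 := ee_eq k
  have h4 := ee_eq j
  have e : ee k - 0 - 3 * NN j = ee k - ee j := by omega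
  rw [cf_eq x (by omega), e]

lemma cf_left_zero {j k : ℕ} (h : k < j) (x : H2) : cf j 0 x (ee k) = 0 := by
  have h1 := NN_lt h
  have h2 := NN_pos k
  have h3 := ee_eq k
  exact cf_zero _ (by omega)

lemma cf_right {j k : ℕ} (h : j < k) (x : H2) :
    cf j (ee (j + 1) - ee j) x (ee k) = ⟪qq j (ee k - ee (j + 1)), x⟫_ℂ := by
  have h1 := NN_mono (Nat.succ_le_of_lt h)
  have h2 := NN_pos j
  have h3 := ee_eq k
  have h4 := ee_eq j
  have h5 := ee_eq (j + 1)
  have h6 := NN_succ j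
  have h7 : NN (j + 1) ≤ NN k := h1
  have e : ee k - (ee (j + 1) - ee j) - 3 * NN j = ee k - ee (j + 1) := by omega
  rw [cf_eq x (by omega), e]

lemma cf_right_zero {j k : ℕ} (h : k ≤ j) (x : H2) :
    cf j (ee (j + 1) - ee j) x (ee k) = 0 := by
  have h1 := NN_mono h
  have h2 := NN_pos j
  have h3 := ee_eq k
  have h4 := ee_eq j
  have h5 := ee_eq (j + 1)
  have h6 := NN_succ j
  exact cf_zero _ (by omega)

lemma sum_range_extend {M : Type*} [AddCommMonoid M] (f : ℕ → M) {a b : ℕ} (h : a ≤ b)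
    (h0 : ∀ j, a ≤ j → j < b → f j = 0) :
    ∑ j ∈ Finset.range b, f j = ∑ j ∈ Finset.range a, f j := by
  symm
  apply Finset.sum_subset
  · intro j hj
    rw [Finset.mem_range] at *
    omega
  · intro j hj hj'
    rw [Finset.mem_range] at *
    exact h0 j (by omega) hj

lemma cfull_eq {K k : ℕ} (hk : k ≤ K) (x : H2) : cfull K x (ee k) = ⟪Dv K k, x⟫_ℂ := by
  have hB : ∑ j ∈ Finset.range K, (BB j : ℂ) * cf j (ee (j + 1) - ee j) x (ee k)
      = ∑ j ∈ Finset.range k, (BB j : ℂ) * ⟪qq j (ee k - ee (j + 1)), x⟫_ℂ := by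
    rw [sum_range_extend _ hk]
    · refine Finset.sum_congr rfl (fun j hj => ?_)
      rw [Finset.mem_range] at hj
      rw [cf_right hj]
    · intro j hj _
      rw [cf_right_zero hj, mul_zero]
  have hinB : ⟪∑ j ∈ Finset.range k, (BB j : ℂ) • qq j (ee k - ee (j + 1)), x⟫_ℂ
      = ∑ j ∈ Finset.range k, (BB j : ℂ) * ⟪qq j (ee k - ee (j + 1)), x⟫_ℂ := by
    rw [sum_inner]
    refine Finset.sum_congr rfl (fun j _ => ?_)
    rw [inner_smul_left, Complex.conj_ofReal]
  have hinA : ∀ l : ℕ, ⟪∑ j ∈ Finset.range l, (AA j : ℂ) • qq j (ee k - ee j), x⟫_ℂ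
      = ∑ j ∈ Finset.range l, (AA j : ℂ) * ⟪qq j (ee k - ee j), x⟫_ℂ := by
    intro l
    rw [sum_inner]
    refine Finset.sum_congr rfl (fun j _ => ?_)
    rw [inner_smul_left, Complex.conj_ofReal]
  unfold cfull
  rw [Finset.sum_sub_distrib, hB]
  by_cases hkK : k < K
  · have hA : ∑ j ∈ Finset.range K, (AA j : ℂ) * cf j 0 x (ee k)
        = ∑ j ∈ Finset.range (k + 1), (AA j : ℂ) * ⟪qq j (ee k - ee j), x⟫_ℂ := by
      rw [sum_range_extend _ (show k + 1 ≤ K from hkK)]
      · refine Finset.sum_congr rfl (fun j hj => ?_)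
        rw [Finset.mem_range] at hj
        rw [cf_left (by omega)]
      · intro j hj _
        rw [cf_left_zero (by omega), mul_zero]
    unfold Dv Dfull
    rw [if_pos hkK, inner_sub_left, hinA, hinB, hA]
  · have hkK' : k = K := by omega
    subst hkK'
    have hA : ∑ j ∈ Finset.range k, (AA j : ℂ) * cf j 0 x (ee k)
        = ∑ j ∈ Finset.range k, (AA j : ℂ) * ⟪qq j (ee k - ee j), x⟫_ℂ := by
      refine Finset.sum_congr rfl (fun j hj => ?_)
      rw [Finset.mem_range] at hj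
      rw [cf_left (by omega)]
    unfold Dv Dfull
    rw [if_neg hkK, inner_sub_left, inner_sub_left, hinA, hinB, hA, Finset.sum_range_succ,
      inner_smul_left, Complex.conj_ofReal, Nat.sub_self]
    ring

lemma stage_coeff {K k : ℕ} (hk : k ≤ K) {α β : H2}
    (hβ : ∀ z : ℂ, ‖z‖ < 1 → toFun β z = phiK K z * toFun α z) :
    β (ee k) = ⟪Dv K k, α⟫_ℂ := by
  have h : (β : ℕ → ℂ) = cfull K α := by
    apply coeff_unique (F := toFun β)
    · intro z hz; exact hasSum_toFun β hz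
    · intro z hz; rw [hβ z hz]; exact hasSum_cfull K (hasSum_toFun α hz)
  rw [h, cfull_eq hk]

/-- Remainder terms after telescoping. -/
noncomputable def gg (k : ℕ) : H2 :=
  (cc k : ℂ) • (∑ j ∈ Finset.range k, (AA j : ℂ) • qq j (ee k - ee j)
    - ∑ j ∈ Finset.range (k - 1), (BB j : ℂ) • qq j (ee k - ee (j + 1)))

lemma cc_mul_AA (k : ℕ) : cc k * AA k = 256 ^ k := by
  unfold cc AA
  rw [pow_add]
  field_simp

lemma cc_mul_BB (k : ℕ) : cc (k + 1) * BB k = 256 ^ k := by
  unfold cc BB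
  rw [pow_add]
  field_simp

lemma cc_Dfull_zero : (cc 0 : ℂ) • Dfull 0 = gg 0 + ((cc 0 * AA 0 : ℝ) : ℂ) • qq 0 0 := by
  unfold Dfull gg
  simp only [Finset.range_zero, Finset.sum_empty, Finset.range_one, Finset.sum_singleton,
    Nat.zero_sub, Nat.sub_self, sub_zero, smul_zero, zero_add]
  rw [smul_smul]
  push_cast
  rfl

lemma cc_Dfull_succ (k : ℕ) : (cc (k + 1) : ℂ) • Dfull (k + 1)
    = gg (k + 1) + ((cc (k + 1) * AA (k + 1) : ℝ) : ℂ) • qq (k + 1) 0
      - ((cc (k + 1) * BB k : ℝ) : ℂ) • qq k 0 := by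
  unfold Dfull gg
  rw [Finset.sum_range_succ (n := k + 1), Finset.sum_range_succ (n := k)
    (f := fun j => (BB j : ℂ) • qq j (ee (k + 1) - ee (j + 1)))]
  simp only [Nat.add_sub_cancel, Nat.sub_self]
  push_cast
  simp only [smul_sub, smul_add, ← smul_smul]
  abel

lemma telescope (K : ℕ) : ∑ k ∈ Finset.range (K + 1), (cc k : ℂ) • Dfull k
    = ∑ k ∈ Finset.range (K + 1), gg k + ((cc K * AA K : ℝ) : ℂ) • qq K 0 := by
  induction K with
  | zero => simp only [zero_add, Finset.range_one, Finset.sum_singleton]; exact cc_Dfull_zero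
  | succ K ih =>
    rw [Finset.sum_range_succ, ih, cc_Dfull_succ, cc_mul_BB, cc_mul_AA K,
      Finset.sum_range_succ (n := K + 1) (f := gg)]
    abel

lemma stage_sum (K : ℕ) : ∑ k ∈ Finset.range (K + 1), (cc k : ℂ) • Dv K k
    = ∑ k ∈ Finset.range (K + 1), gg k := by
  have h1 : ∑ k ∈ Finset.range (K + 1), (cc k : ℂ) • Dv K k
      = ∑ k ∈ Finset.range (K + 1), (cc k : ℂ) • Dfull k - ((cc K * AA K : ℝ) : ℂ) • qq K 0 := by
    rw [Finset.sum_range_succ, Finset.sum_range_succ (n := K) (f := fun k => (cc k : ℂ) • Dfull k)]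
    have : ∑ k ∈ Finset.range K, (cc k : ℂ) • Dv K k
        = ∑ k ∈ Finset.range K, (cc k : ℂ) • Dfull k := by
      refine Finset.sum_congr rfl (fun k hk => ?_)
      rw [Finset.mem_range] at hk
      unfold Dv
      rw [if_pos hk]
    rw [this]
    unfold Dv
    rw [if_neg (lt_irrefl K), smul_sub, smul_smul]
    push_cast
    abel
  rw [h1, telescope, add_sub_cancel_right]

lemma cc_pos (k : ℕ) : 0 < cc k := by unfold cc; positivity
lemma AA_pos (k : ℕ) : 0 < AA k := by unfold AA; positivity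
lemma BB_pos (k : ℕ) : 0 < BB k := by unfold BB; positivity

lemma cc_AA_le {j k : ℕ} (h : j < k) : cc k * AA j ≤ (1 / 256) ^ k := by
  unfold cc AA
  rw [one_div, inv_pow, inv_mul_le_iff₀ (by positivity)]
  rw [← div_eq_mul_inv, le_div_iff₀ (by positivity), ← pow_add]
  apply pow_le_pow_right₀ (by norm_num)
  obtain ⟨d, rfl⟩ := Nat.exists_eq_add_of_lt h
  nlinarith [Nat.zero_le d, Nat.zero_le j]

lemma cc_BB_le {j k : ℕ} (h : j + 1 < k) : cc k * BB j ≤ (1 / 256) ^ k := by
  unfold cc BB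
  rw [one_div, inv_pow, inv_mul_le_iff₀ (by positivity)]
  rw [← div_eq_mul_inv, le_div_iff₀ (by positivity), ← pow_add]
  apply pow_le_pow_right₀ (by norm_num)
  obtain ⟨d, rfl⟩ := Nat.exists_eq_add_of_lt h
  nlinarith [Nat.zero_le d, Nat.zero_le j]

lemma norm_gg_le (k : ℕ) : ‖gg k‖ ≤ 2 * k * (1 / 256) ^ k := by
  unfold gg
  rw [norm_smul, Complex.norm_real, Real.norm_of_nonneg (cc_pos k).le]
  have h1 : ‖∑ j ∈ Finset.range k, (AA j : ℂ) • qq j (ee k - ee j)‖
      ≤ ∑ j ∈ Finset.range k, AA j := by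
    refine (norm_sum_le _ _).trans (Finset.sum_le_sum (fun j _ => ?_))
    rw [norm_smul, Complex.norm_real, Real.norm_of_nonneg (AA_pos j).le]
    exact mul_le_of_le_one_right (AA_pos j).le (norm_qq_le _ _)
  have h2 : ‖∑ j ∈ Finset.range (k - 1), (BB j : ℂ) • qq j (ee k - ee (j + 1))‖
      ≤ ∑ j ∈ Finset.range (k - 1), BB j := by
    refine (norm_sum_le _ _).trans (Finset.sum_le_sum (fun j _ => ?_))
    rw [norm_smul, Complex.norm_real, Real.norm_of_nonneg (BB_pos j).le]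
    exact mul_le_of_le_one_right (BB_pos j).le (norm_qq_le _ _)
  have h3 : cc k * ∑ j ∈ Finset.range k, AA j ≤ k * (1 / 256) ^ k := by
    rw [Finset.mul_sum]
    refine (Finset.sum_le_card_nsmul _ _ ((1 / 256) ^ k) (fun j hj => ?_)).trans ?_
    · exact cc_AA_le (Finset.mem_range.1 hj)
    · rw [Finset.card_range, nsmul_eq_mul]
  have h4 : cc k * ∑ j ∈ Finset.range (k - 1), BB j ≤ k * (1 / 256) ^ k := by
    rw [Finset.mul_sum]
    refine (Finset.sum_le_card_nsmul _ _ ((1 / 256) ^ k) (fun j hj => ?_)).trans ?_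
    · have := Finset.mem_range.1 hj
      exact cc_BB_le (by omega)
    · rw [Finset.card_range, nsmul_eq_mul]
      apply mul_le_mul_of_nonneg_right _ (by positivity)
      exact_mod_cast Nat.sub_le k 1
  calc cc k * ‖∑ j ∈ Finset.range k, (AA j : ℂ) • qq j (ee k - ee j)
        - ∑ j ∈ Finset.range (k - 1), (BB j : ℂ) • qq j (ee k - ee (j + 1))‖
      ≤ cc k * (∑ j ∈ Finset.range k, AA j + ∑ j ∈ Finset.range (k - 1), BB j) := by
        apply mul_le_mul_of_nonneg_left _ (cc_pos k).le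
        exact (norm_sub_le _ _).trans (add_le_add h1 h2)
    _ ≤ 2 * k * (1 / 256) ^ k := by rw [mul_add]; linarith

lemma summable_gg : Summable gg := by
  apply Summable.of_norm_bounded (g := fun k : ℕ => 2 * ((k : ℝ) ^ 1 * (1 / 256) ^ k))
  · have h := summable_pow_mul_geometric_of_norm_lt_one (R := ℝ) 1 (r := (1 / 256 : ℝ))
      (by norm_num)
    exact h.mul_left 2
  · intro k
    refine (norm_gg_le k).trans (le_of_eq ?_)
    ring

lemma summable_ff : Summable (fun k => (cc k : ℂ) • mono (ee k)) := by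
  apply Summable.of_norm_bounded (g := fun k : ℕ => (1 / 256 : ℝ) ^ k)
  · exact summable_geometric_of_lt_one (by norm_num) (by norm_num)
  · intro k
    rw [norm_smul, norm_mono, mul_one, Complex.norm_real, Real.norm_of_nonneg (cc_pos k).le]
    unfold cc
    rw [one_div, inv_pow]
    apply inv_anti₀ (by positivity)
    apply pow_le_pow_right₀ (by norm_num)
    nlinarith [Nat.zero_le k]

/-- The function `f` of the construction. -/
noncomputable def ff : H2 := ∑' k, (cc k : ℂ) • mono (ee k)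

noncomputable def ffp : H2 := ∑' k, gg k

/-- Test vectors. -/
noncomputable def vv (n : ℕ) : H2 :=
  ∑ i ∈ Finset.range n, ((1 / (nu i * NN i) : ℝ) : ℂ) • qq i 0

lemma inner_gg_qq (k i : ℕ) : ⟪gg k, qq i 0⟫_ℂ = 0 := by
  unfold gg
  rw [inner_smul_left, inner_sub_left, sum_inner, sum_inner]
  have h1 : ∑ j ∈ Finset.range k, ⟪(AA j : ℂ) • qq j (ee k - ee j), qq i 0⟫_ℂ = 0 := by
    apply Finset.sum_eq_zero
    intro j hj
    rw [Finset.mem_range] at hj
    rw [inner_smul_left, inner_qq_disj, mul_zero]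
    have a1 := NN_lt hj
    have a2 := NN_pos j
    have a3 := ee_eq k
    have a4 := ee_eq j
    rcases Nat.lt_or_ge k i with h | h
    · left
      have a5 := NN_lt h
      omega
    · right
      have a5 := NN_mono h
      omega
  have h2 : ∑ j ∈ Finset.range (k - 1), ⟪(BB j : ℂ) • qq j (ee k - ee (j + 1)), qq i 0⟫_ℂ = 0 := by
    apply Finset.sum_eq_zero
    intro j hj
    rw [Finset.mem_range] at hj
    rw [inner_smul_left, inner_qq_disj, mul_zero]
    have a1 := NN_lt (show j + 1 < k by omega)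
    have a2 := NN_pos j
    have a3 := ee_eq k
    have a4 := ee_eq (j + 1)
    have a6 := NN_succ j
    rcases Nat.lt_or_ge k i with h | h
    · left
      have a5 := NN_lt h
      omega
    · right
      have a5 := NN_mono h
      omega
  rw [h1, h2, sub_zero, mul_zero]

lemma inner_qq_qq (k i : ℕ) : ⟪qq k 0, qq i 0⟫_ℂ = if i = k then (nu k : ℂ) else 0 := by
  by_cases h : i = k
  · subst h; rw [if_pos rfl, inner_qq_self']
  · rw [if_neg h, inner_qq_disj]
    rcases Nat.lt_or_ge i k with h' | h'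
    · right
      have a5 := NN_lt h'
      have a2 := NN_pos i
      omega
    · left
      have a5 := NN_lt (show k < i by omega)
      have a2 := NN_pos k
      omega

lemma inner_qq_vv {k n : ℕ} (h : k < n) : ⟪qq k 0, vv n⟫_ℂ = 1 / (NN k : ℂ) := by
  unfold vv
  rw [inner_sum, Finset.sum_eq_single k]
  · rw [inner_smul_right, inner_qq_qq, if_pos rfl]
    have h1 : (nu k : ℂ) ≠ 0 := by exact_mod_cast (nu_pos k).ne'
    have h2 : (NN k : ℂ) ≠ 0 := by exact_mod_cast (NN_pos k).ne'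
    push_cast
    field_simp
  · intro i _ hik
    rw [inner_smul_right, inner_qq_qq, if_neg hik, mul_zero]
  · intro hk
    exact absurd (Finset.mem_range.2 h) hk

lemma inner_gg_vv (k n : ℕ) : ⟪gg k, vv n⟫_ℂ = 0 := by
  unfold vv
  rw [inner_sum]
  apply Finset.sum_eq_zero
  intro i _
  rw [inner_smul_right, inner_gg_qq, mul_zero]

lemma inner_Dfull_zero {n : ℕ} (h : 0 < n) : ⟪Dfull 0, vv n⟫_ℂ = 1 := by
  have h1 := congrArg (fun x => ⟪x, vv n⟫_ℂ) cc_Dfull_zero
  simp only [inner_add_left, inner_smul_left, inner_gg_vv, inner_qq_vv h,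
    Complex.conj_ofReal, cc_mul_AA] at h1
  have h2 : (cc 0 : ℂ) = 1 := by unfold cc; simp
  rw [h2] at h1
  simpa [NN] using h1

lemma inner_Dfull_succ {k n : ℕ} (h : k + 1 < n) : ⟪Dfull (k + 1), vv n⟫_ℂ = 0 := by
  have h1 := congrArg (fun x => ⟪x, vv n⟫_ℂ) (cc_Dfull_succ k)
  simp only [inner_add_left, inner_sub_left, inner_smul_left, inner_gg_vv, inner_qq_vv h,
    inner_qq_vv (show k < n by omega), Complex.conj_ofReal, cc_mul_AA, cc_mul_BB] at h1
  have h2 : (cc (k + 1) : ℂ) ≠ 0 := by exact_mod_cast (cc_pos _).ne'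
  have h3 : (((256 : ℝ) ^ (k + 1) : ℝ) : ℂ) * (1 / (NN (k + 1) : ℂ)) = 1 := by
    unfold NN; push_cast; field_simp
  have h4 : (((256 : ℝ) ^ k : ℝ) : ℂ) * (1 / (NN k : ℂ)) = 1 := by
    unfold NN; push_cast; field_simp
  rw [h3, h4] at h1
  have h5 : (cc (k + 1) : ℂ) * ⟪Dfull (k + 1), vv n⟫_ℂ = 0 := by rw [h1]; ring
  exact (mul_eq_zero.1 h5).resolve_left h2

lemma norm_vv_le (n : ℕ) : ‖vv n‖ ≤ 3 := by
  unfold vv
  have h1 : ∀ i, ‖((1 / (nu i * NN i) : ℝ) : ℂ) • qq i 0‖ ≤ 2 * (1 / 16) ^ i := by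
    intro i
    have hN : (0:ℝ) < NN i := by exact_mod_cast NN_pos i
    have hnu := nu_pos i
    rw [norm_smul, Complex.norm_real, Real.norm_of_nonneg (by positivity)]
    have h2 : ‖qq i 0‖ = Real.sqrt (nu i) := by
      rw [nu_eq_norm, Real.sqrt_sq (norm_nonneg _)]
    rw [h2]
    have h3 : 1 / (2 * (NN i : ℝ)) ≤ nu i := nu_lower i
    have h4 : (1 / 16 : ℝ) ^ i / 2 ≤ Real.sqrt (nu i) := by
      apply Real.le_sqrt_of_sq_le
      refine le_trans ?_ h3
      have h5 : ((1 / 16 : ℝ) ^ i) ^ 2 = 1 / NN i := by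
        unfold NN
        rw [← pow_mul, mul_comm i 2, pow_mul]
        push_cast
        rw [← one_div_pow]
        norm_num
      rw [div_pow, h5]
      rw [div_div, div_le_div_iff₀ (by positivity) (by positivity)]
      nlinarith
    have h5 : (1 / 16 : ℝ) ^ i * (1 / 16 : ℝ) ^ i = 1 / NN i := by
      unfold NN
      rw [← mul_pow]
      push_cast
      rw [← one_div_pow]
      norm_num
    have h6 : Real.sqrt (nu i) * Real.sqrt (nu i) = nu i := Real.mul_self_sqrt hnu.le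
    have h7 : 0 < Real.sqrt (nu i) := Real.sqrt_pos.2 hnu
    have h8 : 1 / (nu i * NN i) * Real.sqrt (nu i)
        = ((1 / 16 : ℝ) ^ i * (1 / 16 : ℝ) ^ i) / Real.sqrt (nu i) := by
      rw [h5, div_mul_eq_mul_div, one_mul, div_div, div_eq_div_iff (by positivity) (by positivity),
        one_mul]
      calc Real.sqrt (nu i) * (NN i * Real.sqrt (nu i))
          = (Real.sqrt (nu i) * Real.sqrt (nu i)) * NN i := by ring
        _ = nu i * NN i := by rw [h6]
    rw [h8, div_le_iff₀ h7]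
    have h9 : (0:ℝ) < (1 / 16 : ℝ) ^ i := by positivity
    nlinarith
  refine (norm_sum_le _ _).trans ?_
  refine (Finset.sum_le_sum (fun i _ => h1 i)).trans ?_
  rw [← Finset.mul_sum]
  have h2 : ∑ i ∈ Finset.range n, (1 / 16 : ℝ) ^ i ≤ ∑' i, (1 / 16 : ℝ) ^ i :=
    Summable.sum_le_tsum _ (fun i _ => by positivity)
      (summable_geometric_of_lt_one (by norm_num) (by norm_num))
  rw [tsum_geometric_of_lt_one (by norm_num) (by norm_num)] at h2
  calc 2 * ∑ i ∈ Finset.range n, (1 / 16 : ℝ) ^ i ≤ 2 * (1 - 1 / 16 : ℝ)⁻¹ := by gcongr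
    _ ≤ 3 := by norm_num

end Pool.Agent.MP_ed2161_an
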