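import Pool.Agent.MP_ed2161_an.Stage
import Pool.Agent.MP_ed2161_an.Outer

set_option autoImplicit false
open Complex Filter Topology MeasureTheory Metric
open scoped ComplexConjugate InnerProductSpace

namespace Pool.Agent.MP_ed2161_an

/-- The symbol. -/
noncomputable def phi (z : ℂ) : ℂ := ∑' k, EE k z

lemma ee_sub (k : ℕ) : ee (k + 1) - ee k = 765 * NN k := by
  have h1 := ee_eq k
  have h2 := ee_eq (k + 1)
  have h3 := NN_succ k
  omega

lemma norm_EE_le (k : ℕ) (z : ℂ) :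
    ‖EE k z‖ ≤ AA k * (‖z‖ * ‖1 + z‖ / 2) ^ (NN k) + BB k * (‖z‖ ^ 766 * ‖1 + z‖ / 2) ^ (NN k) := by
  unfold EE PP
  rw [norm_mul, ee_sub]
  have h1 : ‖(z * (1 + z) / 2) ^ NN k‖ = (‖z‖ * ‖1 + z‖ / 2) ^ (NN k) := by
    rw [norm_pow, norm_div, norm_mul]; simp
  have h2 : ‖(AA k : ℂ) - (BB k : ℂ) * z ^ (765 * NN k)‖ ≤ AA k + BB k * ‖z‖ ^ (765 * NN k) := by
    refine (norm_sub_le _ _).trans (le_of_eq ?_)
    rw [norm_mul, norm_pow, Complex.norm_real, Complex.norm_real,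
      Real.norm_of_nonneg (AA_pos k).le, Real.norm_of_nonneg (BB_pos k).le]
  have h3 : ‖z‖ ^ 766 = ‖z‖ ^ 765 * ‖z‖ := pow_succ _ _
  have h4 : ‖z‖ ^ (765 * NN k) = (‖z‖ ^ 765) ^ (NN k) := pow_mul _ _ _
  rw [h4] at h2
  rw [h1, h3]
  refine (mul_le_mul_of_nonneg_left h2 (by positivity)).trans (le_of_eq ?_)
  generalize ‖z‖ ^ 765 = x
  rw [show x * ‖z‖ * ‖1 + z‖ / 2 = x * (‖z‖ * ‖1 + z‖ / 2) by ring, mul_pow x]
  ring

lemma poly_one (k : ℕ) : 6 * ((k : ℝ) + 2) ^ 2 + k ≤ 16 ^ k / 2 + 100 := by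
  rcases Nat.eq_zero_or_pos k with h | h
  · subst h; norm_num
  · obtain ⟨m, rfl⟩ : ∃ m, k = m + 1 := ⟨k - 1, by omega⟩
    have : 6 * (((m : ℝ) + 1) + 2) ^ 2 + (m + 1) ≤ 8 * 16 ^ m + 100 := by
      clear h
      induction m with
      | zero => norm_num
      | succ m ih =>
        have hb : 1 + (m : ℝ) * 15 ≤ 16 ^ m := by
          have := one_add_mul_le_pow (show (-2 : ℝ) ≤ 15 by norm_num) m
          norm_num at this
          linarith
        push_cast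
        rw [pow_succ (16 : ℝ) m]
        nlinarith [Nat.cast_nonneg (α := ℝ) m]
    push_cast
    rw [pow_succ (16 : ℝ) m]
    linarith

lemma poly_two (k : ℕ) : 6 * ((k : ℝ) + 2) ^ 2 + k ≤ 100 * 2 ^ k := by
  induction k with
  | zero => norm_num
  | succ k ih =>
    have hb : 1 + (k : ℝ) ≤ 2 ^ k := by
      have := one_add_mul_le_pow (show (-2 : ℝ) ≤ 1 by norm_num) k
      norm_num at this
      linarith
    push_cast
    rw [pow_succ (2 : ℝ) k]
    nlinarith [Nat.cast_nonneg (α := ℝ) k]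

lemma AB_le (k : ℕ) : AA k + BB k ≤ Real.exp (6 * ((k : ℝ) + 2) ^ 2) := by
  have h1 : AA k ≤ (256 : ℝ) ^ ((k + 2) ^ 2 - 1) := by
    unfold AA
    apply pow_le_pow_right₀ (by norm_num)
    have : k + k ^ 2 + 1 ≤ (k + 2) ^ 2 := by nlinarith
    omega
  have h2 : BB k ≤ (256 : ℝ) ^ ((k + 2) ^ 2 - 1) := by
    unfold BB
    apply pow_le_pow_right₀ (by norm_num)
    have : k + (k + 1) ^ 2 + 1 ≤ (k + 2) ^ 2 := by nlinarith
    omega
  have h3 : (256 : ℝ) ^ ((k + 2) ^ 2) = 256 ^ ((k + 2) ^ 2 - 1) * 256 := by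
    have : 1 ≤ (k + 2) ^ 2 := Nat.one_le_pow _ _ (by omega)
    rw [← pow_succ, Nat.sub_add_cancel this]
  have h4 : (0:ℝ) < (256 : ℝ) ^ ((k + 2) ^ 2 - 1) := by positivity
  have h5 : AA k + BB k ≤ (256 : ℝ) ^ ((k + 2) ^ 2) := by rw [h3]; linarith
  have h6 : (256 : ℝ) ≤ Real.exp 6 := by
    have e1 : Real.exp 6 = (Real.exp 1) ^ 6 := by rw [← Real.exp_nat_mul]; norm_num
    have e2 : (2.7 : ℝ) ≤ Real.exp 1 := by
      have := Real.exp_one_gt_d9; linarith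
    rw [e1]
    calc (256 : ℝ) ≤ 2.7 ^ 6 := by norm_num
      _ ≤ (Real.exp 1) ^ 6 := by gcongr
  calc AA k + BB k ≤ (256 : ℝ) ^ ((k + 2) ^ 2) := h5
    _ ≤ (Real.exp 6) ^ ((k + 2) ^ 2) := by gcongr
    _ = Real.exp (6 * ((k : ℝ) + 2) ^ 2) := by
        rw [← Real.exp_nat_mul]; congr 1; push_cast; ring

lemma key_bound (k : ℕ) {s : ℝ} (hs : 0 < s) (hs1 : s ≤ 1) :
    (AA k + BB k) * Real.exp (-((NN k : ℝ) * s ^ 2 / 2)) ≤ (1 / 2) ^ k * Real.exp (100 / Real.sqrt s) := by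
  have hsq : 0 < Real.sqrt s := Real.sqrt_pos.2 hs
  have hsq1 : Real.sqrt s ≤ 1 := by
    have := Real.sqrt_le_sqrt hs1
    rwa [Real.sqrt_one] at this
  have key : 6 * ((k : ℝ) + 2) ^ 2 + k ≤ (NN k : ℝ) * s ^ 2 / 2 + 100 / Real.sqrt s := by
    have hNN : (NN k : ℝ) = 256 ^ k := by unfold NN; push_cast; rfl
    by_cases h : (1 / 4 : ℝ) ^ k ≤ s
    · have h1 : (16 : ℝ) ^ k / 2 ≤ (NN k : ℝ) * s ^ 2 / 2 := by
        have : (16 : ℝ) ^ k = 256 ^ k * ((1 / 4) ^ k) ^ 2 := by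
          rw [← pow_mul, mul_comm k 2, pow_mul, ← mul_pow]; norm_num
        rw [this, hNN]
        gcongr
      have h2 : 100 ≤ 100 / Real.sqrt s := by
        rw [le_div_iff₀ hsq]; nlinarith
      have := poly_one k
      linarith
    · push Not at h
      have h1 : Real.sqrt s ≤ (1 / 2) ^ k := by
        rw [Real.sqrt_le_left (by positivity)]
        refine h.le.trans (le_of_eq ?_)
        rw [← pow_mul, mul_comm k 2, pow_mul]
        norm_num
      have h2 : 100 * 2 ^ k ≤ 100 / Real.sqrt s := by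
        rw [le_div_iff₀ hsq]
        calc 100 * 2 ^ k * Real.sqrt s ≤ 100 * 2 ^ k * (1 / 2) ^ k := by gcongr
          _ = 100 := by rw [mul_assoc, ← mul_pow]; norm_num
      have h3 : 0 ≤ (NN k : ℝ) * s ^ 2 / 2 := by positivity
      have := poly_two k
      linarith
  have h1 : Real.exp (-(k : ℝ)) ≤ (1 / 2) ^ k := by
    have e1 : Real.exp (-(k : ℝ)) = (Real.exp (-1)) ^ k := by
      rw [← Real.exp_nat_mul]; congr 1; ring
    rw [e1]
    apply pow_le_pow_left₀ (Real.exp_pos _).le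
    rw [Real.exp_neg, one_div]
    apply inv_anti₀ (by norm_num)
    have := Real.exp_one_gt_d9; linarith
  calc (AA k + BB k) * Real.exp (-((NN k : ℝ) * s ^ 2 / 2))
      ≤ Real.exp (6 * ((k : ℝ) + 2) ^ 2) * Real.exp (-((NN k : ℝ) * s ^ 2 / 2)) := by
        apply mul_le_mul_of_nonneg_right (AB_le k) (Real.exp_pos _).le
    _ = Real.exp (6 * ((k : ℝ) + 2) ^ 2 + -((NN k : ℝ) * s ^ 2 / 2)) := (Real.exp_add _ _).symm
    _ ≤ Real.exp (-(k : ℝ) + 100 / Real.sqrt s) := by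
        apply Real.exp_le_exp.2; linarith
    _ = Real.exp (-(k : ℝ)) * Real.exp (100 / Real.sqrt s) := Real.exp_add _ _
    _ ≤ _ := by
        apply mul_le_mul_of_nonneg_right h1 (Real.exp_pos _).le

lemma summable_key {ρ : ℝ} (h0 : 0 < ρ) (h1 : ρ < 1) :
    Summable (fun k => (AA k + BB k) * ρ ^ (NN k)) := by
  set c := -Real.log ρ with hc
  have hcpos : 0 < c := by rw [hc]; linarith [Real.log_neg h0 h1]
  set s := min 1 (Real.sqrt (2 * c)) with hsdef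
  have hs : 0 < s := lt_min one_pos (Real.sqrt_pos.2 (by linarith))
  have hs1 : s ≤ 1 := min_le_left _ _
  have hs2 : s ^ 2 ≤ 2 * c := by
    have := Real.sq_sqrt (show 0 ≤ 2 * c by linarith)
    rw [← this]
    exact pow_le_pow_left₀ hs.le (min_le_right _ _) 2
  refine Summable.of_nonneg_of_le (fun k => ?_) (fun k => ?_)
    ((summable_geometric_of_lt_one (show (0:ℝ) ≤ 1 / 2 by norm_num)
      (by norm_num)).mul_right (Real.exp (100 / Real.sqrt s)))
  · have := AA_pos k; have := BB_pos k; positivity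
  · refine le_trans ?_ (key_bound k hs hs1)
    have := AA_pos k
    have := BB_pos k
    gcongr
    have e1 : ρ = Real.exp (-c) := by rw [hc, neg_neg, Real.exp_log h0]
    rw [e1, ← Real.exp_nat_mul]
    apply Real.exp_le_exp.2
    have : (0:ℝ) ≤ NN k := Nat.cast_nonneg _
    nlinarith

/-- The region where the symbol is analytic. -/
def UU : Set ℂ := {z | ‖z‖ * ‖1 + z‖ < 2 ∧ ‖z‖ ^ 766 * ‖1 + z‖ < 2}

lemma EE_local {z₀ : ℂ} (h : z₀ ∈ UU) :
    ∃ V : Set ℂ, IsOpen V ∧ z₀ ∈ V ∧ ∃ ρ : ℝ, 0 < ρ ∧ ρ < 1 ∧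
      ∀ k, ∀ z ∈ V, ‖EE k z‖ ≤ (AA k + BB k) * ρ ^ (NN k) := by
  obtain ⟨h1, h2⟩ := h
  obtain ⟨r1, hr1, hr1'⟩ := exists_between h1
  obtain ⟨r2, hr2, hr2'⟩ := exists_between h2
  set ρ := max (max r1 r2 / 2) (1 / 2) with hρ
  refine ⟨{z | ‖z‖ * ‖1 + z‖ < r1} ∩ {z | ‖z‖ ^ 766 * ‖1 + z‖ < r2}, ?_, ⟨hr1, hr2⟩, ρ, ?_, ?_, ?_⟩
  · apply IsOpen.inter
    · exact isOpen_lt (by fun_prop) continuous_const
    · exact isOpen_lt (by fun_prop) continuous_const
  · exact lt_of_lt_of_le (by norm_num) (le_max_right _ _)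
  · rw [hρ, max_lt_iff]
    refine ⟨?_, by norm_num⟩
    have : max r1 r2 < 2 := max_lt hr1' hr2'
    linarith
  · rintro k z ⟨hz1, hz2⟩
    simp only [Set.mem_ofPred_eq] at hz1 hz2
    refine (norm_EE_le k z).trans ?_
    rw [add_mul]
    have e1 : ‖z‖ * ‖1 + z‖ / 2 ≤ ρ := by
      refine le_trans ?_ (le_max_left _ _)
      have := le_max_left r1 r2
      linarith
    have e2 : ‖z‖ ^ 766 * ‖1 + z‖ / 2 ≤ ρ := by
      refine le_trans ?_ (le_max_left _ _)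
      have := le_max_right r1 r2
      linarith
    have := AA_pos k
    have := BB_pos k
    gcongr

lemma hasSum_phi {z : ℂ} (h : z ∈ UU) : HasSum (fun k => EE k z) (phi z) := by
  obtain ⟨V, hV, hzV, ρ, h0, h1, hb⟩ := EE_local h
  exact (Summable.of_norm_bounded (summable_key h0 h1) (fun k => hb k z hzV)).hasSum

lemma differentiable_EE (k : ℕ) : Differentiable ℂ (EE k) := by
  unfold EE PP
  fun_prop

lemma differentiable_phiK (K : ℕ) : Differentiable ℂ (phiK K) := by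
  unfold phiK
  have := differentiable_EE
  fun_prop

lemma phi_differentiableAt {z : ℂ} (h : z ∈ UU) : DifferentiableAt ℂ phi z := by
  obtain ⟨V, hV, hzV, ρ, h0, h1, hb⟩ := EE_local h
  have := differentiableOn_tsum_of_summable_norm (summable_key h0 h1)
    (fun k => (differentiable_EE k).differentiableOn) hV (fun k w hw => hb k w hw)
  exact this.differentiableAt (hV.mem_nhds hzV)

lemma mem_UU_of_ball {z : ℂ} (h : ‖z‖ < 1) : z ∈ UU := by
  have h1 : ‖1 + z‖ < 2 := by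
    calc ‖1 + z‖ ≤ ‖(1:ℂ)‖ + ‖z‖ := norm_add_le _ _
      _ < 2 := by rw [norm_one]; linarith
  have h2 := norm_nonneg z
  have h3 := norm_nonneg (1 + z)
  have h4 : ‖z‖ ^ 766 ≤ 1 := pow_le_one₀ h2 h.le
  refine ⟨?_, ?_⟩
  · nlinarith
  · calc ‖z‖ ^ 766 * ‖1 + z‖ ≤ 1 * ‖1 + z‖ := by gcongr
      _ < 2 := by linarith

lemma parallelogram {ζ : ℂ} (h : ‖ζ‖ = 1) : ‖1 + ζ‖ ^ 2 + ‖1 - ζ‖ ^ 2 = 4 := by
  have := parallelogram_law_with_norm ℝ (1 : ℂ) ζ
  rw [h, norm_one] at this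
  nlinarith

lemma mem_UU_of_sphere {z : ℂ} (h : ‖z‖ = 1) (h1 : z ≠ 1) : z ∈ UU := by
  have h2 : 0 < ‖1 - z‖ := norm_pos_iff.2 (sub_ne_zero.2 h1.symm)
  have h3 := parallelogram h
  have h4 : ‖1 + z‖ < 2 := by nlinarith [norm_nonneg (1 + z)]
  refine ⟨?_, ?_⟩
  · rw [h]; linarith
  · rw [h]; linarith

/-- Bound on the circle. -/
lemma EE_circle {ζ : ℂ} (h : ‖ζ‖ = 1) (h1 : ζ ≠ 1) (k : ℕ) :
    ‖EE k ζ‖ ≤ (1 / 2) ^ k * Real.exp (100 / Real.sqrt (‖1 - ζ‖ / 2)) := by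
  set s := ‖1 - ζ‖ / 2 with hs
  have h2 : 0 < ‖1 - ζ‖ := norm_pos_iff.2 (sub_ne_zero.2 h1.symm)
  have hs0 : 0 < s := by rw [hs]; linarith
  have h3 := parallelogram h
  have hs1 : s ≤ 1 := by
    have : ‖1 - ζ‖ ≤ 2 := by
      calc ‖1 - ζ‖ ≤ ‖(1:ℂ)‖ + ‖ζ‖ := norm_sub_le _ _
        _ = 2 := by rw [norm_one, h]; norm_num
    rw [hs]; linarith
  refine le_trans ?_ (key_bound k hs0 hs1)
  refine (norm_EE_le k ζ).trans ?_
  rw [h, one_pow, one_mul, ← add_mul]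
  have hA := AA_pos k
  have hB := BB_pos k
  have h4 : ‖1 + ζ‖ / 2 ≤ Real.exp (-(s ^ 2 / 2)) := by
    have e1 : (‖1 + ζ‖ / 2) ^ 2 ≤ (Real.exp (-(s ^ 2 / 2))) ^ 2 := by
      have e2 : (Real.exp (-(s ^ 2 / 2))) ^ 2 = Real.exp (-(s ^ 2)) := by
        rw [← Real.exp_nat_mul]; congr 1; push_cast; ring
      rw [e2]
      have e3 : -(s ^ 2) + 1 ≤ Real.exp (-(s ^ 2)) := Real.add_one_le_exp _
      refine le_trans (le_of_eq ?_) e3
      rw [hs]; linarith
    exact (sq_le_sq₀ (by positivity) (Real.exp_pos _).le).1 e1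
  calc (AA k + BB k) * (‖1 + ζ‖ / 2) ^ (NN k)
      ≤ (AA k + BB k) * (Real.exp (-(s ^ 2 / 2))) ^ (NN k) := by gcongr
    _ = _ := by
        rw [← Real.exp_nat_mul]
        congr 2
        ring

lemma sum_geom_le (K : ℕ) (c : ℝ) (hc : 0 ≤ c) :
    ∑ k ∈ Finset.range K, (1 / 2 : ℝ) ^ k * c ≤ 2 * c := by
  rw [← Finset.sum_mul]
  apply mul_le_mul_of_nonneg_right _ hc
  have h2 : ∑ i ∈ Finset.range K, (1 / 2 : ℝ) ^ i ≤ ∑' i, (1 / 2 : ℝ) ^ i :=
    Summable.sum_le_tsum _ (fun i _ => by positivity)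
      (summable_geometric_of_lt_one (by norm_num) (by norm_num))
  rw [tsum_geometric_of_lt_one (by norm_num) (by norm_num)] at h2
  refine h2.trans (by norm_num)

lemma phiK_circle {ζ : ℂ} (h : ‖ζ‖ = 1) (h1 : ζ ≠ 1) (K : ℕ) :
    ‖phiK K ζ‖ ≤ 2 * Real.exp (100 / Real.sqrt (‖1 - ζ‖ / 2)) := by
  unfold phiK
  refine (norm_sum_le _ _).trans ?_
  refine (Finset.sum_le_sum (fun k _ => EE_circle h h1 k)).trans ?_
  exact sum_geom_le K _ (Real.exp_pos _).le

lemma tendsto_phiK {z : ℂ} (h : z ∈ UU) : Tendsto (fun K => phiK K z) atTop (𝓝 (phi z)) :=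
  (hasSum_phi h).tendsto_sum_nat

lemma phi_circle {ζ : ℂ} (h : ‖ζ‖ = 1) (h1 : ζ ≠ 1) :
    ‖phi ζ‖ ≤ 2 * Real.exp (100 / Real.sqrt (‖1 - ζ‖ / 2)) :=
  le_of_tendsto (tendsto_phiK (mem_UU_of_sphere h h1)).norm
    (Eventually.of_forall (fun K => phiK_circle h h1 K))

/-- The majorant on the circle. -/
noncomputable def GG (ζ : ℂ) : ℝ := Real.log 5 + 200 / Real.sqrt (‖1 - ζ‖ / 2)

lemma Wf_le_GG {ψ : ℂ → ℂ} {ζ : ℂ}
    (h : ‖ψ ζ‖ ≤ 2 * Real.exp (100 / Real.sqrt (‖1 - ζ‖ / 2))) : Wf ψ ζ ≤ GG ζ := by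
  unfold Wf GG
  set x := 100 / Real.sqrt (‖1 - ζ‖ / 2) with hx
  have hx0 : 0 ≤ x := by positivity
  have h1 : 1 ≤ Real.exp (2 * x) := Real.one_le_exp (by positivity)
  have h2 : ‖ψ ζ‖ ^ 2 ≤ 4 * Real.exp (2 * x) := by
    calc ‖ψ ζ‖ ^ 2 ≤ (2 * Real.exp x) ^ 2 := by gcongr
      _ = 4 * Real.exp (2 * x) := by
        rw [two_mul x, Real.exp_add]; ring
  have h3 : 1 + ‖ψ ζ‖ ^ 2 ≤ 5 * Real.exp (2 * x) := by linarith
  have h4 : Real.log (1 + ‖ψ ζ‖ ^ 2) ≤ Real.log (5 * Real.exp (2 * x)) :=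
    Real.log_le_log (by positivity) h3
  rw [Real.log_mul (by norm_num) (Real.exp_pos _).ne', Real.log_exp] at h4
  refine h4.trans (le_of_eq ?_)
  rw [hx]; ring

lemma ci_GG : CircleIntegrable GG 0 1 := by
  unfold CircleIntegrable
  have hper : Function.Periodic (fun θ : ℝ => GG (circleMap 0 1 θ)) (2 * Real.pi) := by
    intro θ
    simp only
    rw [(periodic_circleMap 0 1) θ]
  apply hper.intervalIntegrable (t := -Real.pi) (by positivity)
  have e : -Real.pi + 2 * Real.pi = Real.pi := by ring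
  rw [e]
  have hmeas : AEStronglyMeasurable (fun θ : ℝ => GG (circleMap 0 1 θ))
      (volume.restrict (Set.uIoc (-Real.pi) Real.pi)) := by
    apply Measurable.aestronglyMeasurable
    unfold GG
    have : Measurable (fun θ : ℝ => circleMap 0 1 θ) := (continuous_circleMap 0 1).measurable
    fun_prop
  have hdom : IntervalIntegrable
      (fun t : ℝ => Real.log 5 + 200 * Real.sqrt Real.pi * |t| ^ (-(1 / 2) : ℝ)) volume
      (-Real.pi) Real.pi := by
    apply IntervalIntegrable.add intervalIntegrable_const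
    apply IntervalIntegrable.const_mul
    have e1 : IntervalIntegrable (fun t : ℝ => |t| ^ (-(1 / 2) : ℝ)) volume 0 Real.pi := by
      have := intervalIntegral.intervalIntegrable_rpow' (a := 0) (b := Real.pi)
        (show (-1 : ℝ) < -(1 / 2) by norm_num)
      refine this.congr ?_
      intro t ht
      rw [Set.uIoc_of_le Real.pi_pos.le] at ht
      simp only
      rw [abs_of_pos ht.1]
    have e2 : IntervalIntegrable (fun t : ℝ => |t| ^ (-(1 / 2) : ℝ)) volume (-Real.pi) 0 := by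
      have := e1.comp_sub_left 0
      simp only [zero_sub, abs_neg, neg_zero] at this
      exact this.symm
    exact e2.trans e1
  refine hdom.mono_fun' hmeas ?_
  filter_upwards [ae_restrict_mem measurableSet_uIoc,
    ae_restrict_of_ae ((Set.countable_singleton (0:ℝ)).ae_notMem volume)] with t ht ht0
  rw [Set.uIoc_of_le (by linarith [Real.pi_pos])] at ht
  have ht' : |t| ≤ Real.pi := abs_le.2 ⟨ht.1.le, ht.2⟩
  have ht0' : 0 < |t| := abs_pos.2 (fun h => ht0 (Set.mem_singleton_iff.2 h))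
  have h1 := circle_sub_lower 0 t ht'
  rw [zero_add] at h1
  have h2 : circleMap 0 1 0 = (1 : ℂ) := by simp [circleMap]
  rw [h2, norm_sub_rev] at h1
  have h3 : |t| / Real.pi ≤ ‖1 - circleMap 0 1 t‖ / 2 := by
    calc |t| / Real.pi = (2 / Real.pi * |t|) / 2 := by ring
      _ ≤ _ := by linarith
  unfold GG
  rw [Real.norm_of_nonneg (by have := Real.log_nonneg (show (1:ℝ) ≤ 5 by norm_num); positivity)]
  have h4 : Real.sqrt (|t| / Real.pi) ≤ Real.sqrt (‖1 - circleMap 0 1 t‖ / 2) :=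
    Real.sqrt_le_sqrt h3
  have h5 : 0 < Real.sqrt (|t| / Real.pi) := Real.sqrt_pos.2 (by positivity)
  have h6 : |t| ^ (-(1 / 2) : ℝ) = 1 / Real.sqrt |t| := by
    rw [Real.rpow_neg ht0'.le, ← Real.sqrt_eq_rpow, one_div]
  calc Real.log 5 + 200 / Real.sqrt (‖1 - circleMap 0 1 t‖ / 2)
      ≤ Real.log 5 + 200 / Real.sqrt (|t| / Real.pi) := by gcongr
    _ = Real.log 5 + 200 * Real.sqrt Real.pi * |t| ^ (-(1 / 2) : ℝ) := by
        rw [h6, Real.sqrt_div ht0'.le]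
        have : 0 < Real.sqrt |t| := Real.sqrt_pos.2 ht0'
        have : 0 < Real.sqrt Real.pi := Real.sqrt_pos.2 Real.pi_pos
        field_simp

lemma ae_ne_one : ∀ᵐ θ : ℝ, circleMap 0 1 θ ≠ 1 := by
  have h : (circleMap (0:ℂ) 1 ⁻¹' {1}).Countable :=
    Set.Countable.preimage_circleMap (Set.countable_singleton _) 0 one_ne_zero
  filter_upwards [h.ae_notMem volume] with θ hθ hθ1
  exact hθ hθ1

lemma norm_circleMap_one (θ : ℝ) : ‖circleMap 0 1 θ‖ = 1 := by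
  rw [norm_circleMap_zero, abs_one]

lemma ae_Wf_phiK (K : ℕ) : ∀ᵐ θ : ℝ, |Wf (phiK K) (circleMap 0 1 θ)| ≤ GG (circleMap 0 1 θ) := by
  filter_upwards [ae_ne_one] with θ hθ
  rw [abs_of_nonneg (Wf_nonneg _ _)]
  exact Wf_le_GG (phiK_circle (norm_circleMap_one θ) hθ K)

lemma ae_Wf_phi : ∀ᵐ θ : ℝ, |Wf phi (circleMap 0 1 θ)| ≤ GG (circleMap 0 1 θ) := by
  filter_upwards [ae_ne_one] with θ hθ
  rw [abs_of_nonneg (Wf_nonneg _ _)]
  exact Wf_le_GG (phi_circle (norm_circleMap_one θ) hθ)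

lemma ae_tendsto_Wf : ∀ᵐ θ : ℝ, Tendsto (fun K => Wf (phiK K) (circleMap 0 1 θ)) atTop
    (𝓝 (Wf phi (circleMap 0 1 θ))) := by
  filter_upwards [ae_ne_one] with θ hθ
  have h := tendsto_phiK (mem_UU_of_sphere (norm_circleMap_one θ) hθ)
  unfold Wf
  apply Tendsto.log
  · exact (h.norm.pow 2).const_add 1
  · positivity

lemma continuous_Wf_phiK (K : ℕ) : Continuous (Wf (phiK K)) := by
  unfold Wf
  apply Continuous.log
  · have := (differentiable_phiK K).continuous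
    fun_prop
  · intro z; positivity

lemma good_phiK (K : ℕ) : Good (phiK K) where
  diff := (differentiable_phiK K).differentiableOn
  bdry := Eventually.of_forall (fun _ => differentiable_phiK K _)
  int := ContinuousOn.circleIntegrable' (continuous_Wf_phiK K).continuousOn

lemma good_phi : Good phi where
  diff := fun z hz => (phi_differentiableAt
    (mem_UU_of_ball (mem_ball_zero_iff.1 hz))).differentiableWithinAt
  bdry := by
    filter_upwards [ae_ne_one] with θ hθ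
    exact phi_differentiableAt (mem_UU_of_sphere (norm_circleMap_one θ) hθ)
  int := by
    have hG := ci_GG
    unfold CircleIntegrable at hG ⊢
    refine hG.mono_fun' ?_ ?_
    · apply aestronglyMeasurable_of_tendsto_ae atTop (f := fun K θ => Wf (phiK K) (circleMap 0 1 θ))
      · intro K
        exact ((continuous_Wf_phiK K).comp (continuous_circleMap 0 1)).aestronglyMeasurable
      · exact ae_restrict_of_ae ae_tendsto_Wf
    · exact ae_restrict_of_ae ae_Wf_phi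

lemma tendsto_Hz_phiK {w : ℂ} (hw : ‖w‖ < 1) :
    Tendsto (fun K => Hz (Wf (phiK K)) w) atTop (𝓝 (Hz (Wf phi) w)) :=
  tendsto_Hz (fun K => (good_phiK K).int) ci_GG ae_Wf_phiK ae_tendsto_Wf hw

lemma tendsto_af {w : ℂ} (hw : ‖w‖ < 1) :
    Tendsto (fun K => af (phiK K) w) atTop (𝓝 (af phi w)) := by
  unfold af
  exact (Complex.continuous_exp.tendsto _).comp (((tendsto_Hz_phiK hw).neg).div_const 2)

lemma tendsto_bf {w : ℂ} (hw : ‖w‖ < 1) :
    Tendsto (fun K => bf (phiK K) w) atTop (𝓝 (bf phi w)) := by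
  unfold bf
  exact (tendsto_phiK (mem_UU_of_ball hw)).mul (tendsto_af hw)

lemma bf_phiK_bdd (K : ℕ) : ∃ C : ℝ, ∀ z : ℂ, ‖z‖ < 1 → ‖bf (phiK K) z‖ ≤ C := by
  obtain ⟨C, hC⟩ := (isCompact_closedBall (0:ℂ) 1).exists_bound_of_continuousOn
    (differentiable_phiK K).continuous.continuousOn
  refine ⟨C, fun z hz => ?_⟩
  unfold bf
  rw [norm_mul]
  have h1 := hC z (by rw [mem_closedBall_zero_iff]; exact hz.le)
  have h2 := norm_af_le (good_phiK K) hz
  calc ‖phiK K z‖ * ‖af (phiK K) z‖ ≤ C * 1 := by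
        apply mul_le_mul h1 h2 (norm_nonneg _) ((norm_nonneg _).trans h1)
    _ = C := mul_one C

lemma bf_phiK_le (K : ℕ) {z : ℂ} (hz : ‖z‖ < 1) : ‖bf (phiK K) z‖ ≤ 1 := by
  obtain ⟨C, hC⟩ := bf_phiK_bdd K
  obtain ⟨Ma, Mb, hV, _, hMb⟩ := pair_of_good (good_phiK K) hC
  exact b_le_one hV hMb hz

lemma bf_phi_le {z : ℂ} (hz : ‖z‖ < 1) : ‖bf phi z‖ ≤ 1 :=
  le_of_tendsto (tendsto_bf hz).norm (Eventually.of_forall (fun K => bf_phiK_le K hz))

end Pool.Agent.MP_ed2161_an
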